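import Mathlib
import Pool.Agent.Q143.KF.Mink

/-!
Blichfeldt's theorem: the number of integers of a number field in a box.
-/

set_option autoImplicit false

open NumberField NumberField.InfinitePlace NumberField.mixedEmbedding Module MeasureTheory
open scoped nonZeroDivisors NNReal ENNReal

namespace Q143.RSP

/-- Blichfeldt's theorem. -/
theorem exists_many {E : Type*} [NormedAddCommGroup E] [NormedSpace ℝ E] [MeasurableSpace E]
    [BorelSpace E] [FiniteDimensional ℝ E] (μ : Measure E) [Measure.IsAddHaarMeasure μ]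
    {L : AddSubgroup E} [Countable L] {F s : Set E} (fund : IsAddFundamentalDomain L F μ)
    (hs : MeasurableSet s) (n : ℕ) (h : n * μ F < μ s) :
    ∃ (x : E) (T : Finset L), n < T.card ∧ ∀ g ∈ T, (g : E) + x ∈ s := by
  classical
  by_contra hcon
  push Not at hcon
  have hle : ∀ x : E, ∑' g : L, s.indicator (1 : E → ℝ≥0∞) (g +ᵥ x) ≤ n := by
    intro x
    rw [ENNReal.tsum_eq_iSup_sum]
    refine iSup_le fun T => ?_
    have h1 : ∑ g ∈ T, s.indicator (1 : E → ℝ≥0∞) (g +ᵥ x) =
        ((T.filter fun g : L => (g : E) + x ∈ s).card : ℝ≥0∞) := by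
      rw [Finset.card_filter]
      push_cast
      refine Finset.sum_congr rfl fun g _ => ?_
      by_cases hg : (g : E) + x ∈ s
      · rw [if_pos hg]
        exact Set.indicator_of_mem (s := s) (by simpa [AddSubgroup.vadd_def] using hg) _
      · rw [if_neg hg]
        exact Set.indicator_of_notMem (s := s) (by simpa [AddSubgroup.vadd_def] using hg) _
    rw [h1]
    have h2 : (T.filter fun g : L => (g : E) + x ∈ s).card ≤ n := by
      by_contra h3
      push Not at h3
      obtain ⟨g, hg, hg'⟩ := hcon x _ h3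
      exact hg' (Finset.mem_filter.mp hg).2
    exact_mod_cast h2
  have hmeas : ∀ g : L, AEMeasurable (fun x => s.indicator (1 : E → ℝ≥0∞) (g +ᵥ x))
      (μ.restrict F) := by
    intro g
    refine Measurable.aemeasurable ?_
    refine (measurable_one.indicator hs).comp ?_
    exact measurable_const_vadd g
  have h1 : μ s ≤ n * μ F := by
    calc μ s = ∫⁻ x, s.indicator (1 : E → ℝ≥0∞) x ∂μ := (lintegral_indicator_one hs).symm
      _ = ∑' g : L, ∫⁻ x in F, s.indicator (1 : E → ℝ≥0∞) (g +ᵥ x) ∂μ :=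
        fund.lintegral_eq_tsum'' _
      _ = ∫⁻ x in F, ∑' g : L, s.indicator (1 : E → ℝ≥0∞) (g +ᵥ x) ∂μ :=
        (lintegral_tsum hmeas).symm
      _ ≤ ∫⁻ _x in F, (n : ℝ≥0∞) ∂μ := lintegral_mono hle
      _ = n * μ F := by rw [setLIntegral_const]
  exact absurd h (not_lt.mpr h1)

theorem sub_mem_convexBodyLT (K : Type*) [Field K] (f : InfinitePlace K → ℝ≥0)
    {a b : mixedSpace K} (ha : a ∈ convexBodyLT K f) (hb : b ∈ convexBodyLT K f) :
    a - b ∈ convexBodyLT K (fun w => 2 * f w) := by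
  simp only [convexBodyLT, Set.mem_prod, Set.mem_pi, Set.mem_univ, Metric.mem_ball, dist_zero_right,
    forall_true_left, Prod.fst_sub, Prod.snd_sub, Pi.sub_apply] at ha hb ⊢
  refine ⟨fun w => ?_, fun w => ?_⟩
  · refine (norm_sub_le _ _).trans_lt ?_
    have h1 := ha.1 w
    have h2 := hb.1 w
    push_cast
    linarith
  · refine (norm_sub_le _ _).trans_lt ?_
    have h1 := ha.2 w
    have h2 := hb.2 w
    push_cast
    linarith

/-- The number of integers of a number field in a box: lower bound. -/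
theorem many_integers (K : Type*) [Field K] [NumberField K] (f : InfinitePlace K → ℝ≥0) (n : ℕ)
    (hc : n * √|(discr K : ℝ)| < ∏ w : InfinitePlace K, (f w : ℝ) ^ mult w) :
    ∃ S : Finset (𝓞 K), n < S.card ∧
      ∀ x ∈ S, ∀ w : InfinitePlace K, w (x : K) < 2 * f w := by
  classical
  have hfund := ZSpan.isAddFundamentalDomain' (latticeBasis K) volume
  have : Countable (Submodule.span ℤ (Set.range (latticeBasis K))).toAddSubgroup := by
    change Countable (Submodule.span ℤ (Set.range (latticeBasis K)))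
    infer_instance
  have hmeas : MeasurableSet (convexBodyLT K f) :=
    (MeasurableSet.univ_pi fun _ => measurableSet_ball).prod
      (MeasurableSet.univ_pi fun _ => measurableSet_ball)
  have hvol : n * volume (ZSpan.fundamentalDomain (latticeBasis K)) <
      volume (convexBodyLT K f) := by
    rw [volume_fundamentalDomain_latticeBasis, convexBodyLT_volume]
    have h3 : ((2 : ℝ≥0∞)⁻¹ ^ nrComplexPlaces K) =
        (((2 : ℝ≥0)⁻¹ ^ nrComplexPlaces K : ℝ≥0) : ℝ≥0∞) := by
      rw [ENNReal.coe_pow, ENNReal.coe_inv two_ne_zero]; rfl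
    have h4 : ((n : ℕ) : ℝ≥0∞) = ((n : ℝ≥0) : ℝ≥0∞) := (ENNReal.coe_natCast n).symm
    rw [h3, h4, ← ENNReal.coe_mul, ← ENNReal.coe_mul, ← ENNReal.coe_mul, ENNReal.coe_lt_coe,
      ← NNReal.coe_lt_coe]
    push_cast
    rw [Int.norm_eq_abs, NNReal.coe_real_pi]
    have h5 : (2 : ℝ)⁻¹ ^ nrComplexPlaces K ≤ 1 := pow_le_one₀ (by norm_num) (by norm_num)
    have h6 : (1 : ℝ) ≤ 2 ^ nrRealPlaces K * Real.pi ^ nrComplexPlaces K :=
      one_le_mul_of_one_le_of_one_le (one_le_pow₀ (by norm_num))
        (one_le_pow₀ (by linarith [Real.pi_gt_three]))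
    have h7 : (0 : ℝ) ≤ ∏ w : InfinitePlace K, (f w : ℝ) ^ mult w := by positivity
    calc (n : ℝ) * ((2 : ℝ)⁻¹ ^ nrComplexPlaces K * √|(discr K : ℝ)|)
        ≤ n * (1 * √|(discr K : ℝ)|) := by gcongr
      _ = n * √|(discr K : ℝ)| := by ring
      _ < ∏ w : InfinitePlace K, (f w : ℝ) ^ mult w := hc
      _ = 1 * ∏ w : InfinitePlace K, (f w : ℝ) ^ mult w := by ring
      _ ≤ _ := by gcongr
  obtain ⟨x, T, hT, hmem⟩ := exists_many volume hfund hmeas n hvol
  have hTne : T.Nonempty := by
    rw [← Finset.card_pos]; omega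
  obtain ⟨g0, hg0⟩ := hTne
  have hex : ∀ g ∈ T, ∃ y : 𝓞 K, mixedEmbedding K (y : K) = (g : mixedSpace K) - g0 := by
    intro g _
    have h1 : (g : mixedSpace K) - g0 ∈ Submodule.span ℤ (Set.range (latticeBasis K)) :=
      Submodule.sub_mem _ g.2 g0.2
    rw [mem_span_latticeBasis] at h1
    obtain ⟨y, hy⟩ := h1
    exact ⟨y, hy⟩
  choose! y hy using hex
  have hinj : Set.InjOn y T := by
    intro g hg g' hg' h
    have h1 := hy g hg
    have h2 := hy g' hg'
    rw [h, h2] at h1
    exact Subtype.ext (sub_left_injective h1).symm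
  refine ⟨T.image y, ?_, ?_⟩
  · rw [Finset.card_image_of_injOn hinj]; exact hT
  · intro z hz w
    obtain ⟨g, hg, rfl⟩ := Finset.mem_image.mp hz
    have h1 : mixedEmbedding K (y g : K) ∈ convexBodyLT K (fun w => 2 * f w) := by
      rw [hy g hg]
      have h2 : (g : mixedSpace K) - g0 = ((g : mixedSpace K) + x) - (g0 + x) := by abel
      rw [h2]
      exact sub_mem_convexBodyLT K f (hmem g hg) (hmem g0 hg0)
    have h3 := (convexBodyLT_mem K _).mp h1 w
    push_cast at h3
    exact h3

end Q143.RSP
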