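import Mathlib
import Pool.Agent.Q143.KF.Count
import Pool.Agent.Q143.RSP.Blich

/-!
Upper bounds for the number of integers of a totally real field in a box, and for the number of
integers in a cube with bounded norm.
-/

set_option autoImplicit false

open NumberField Module Finset Pool.Agent.TeamU Q143.KF

namespace Q143.RSP

theorem one_le_prod {L : Type} [Field L] [NumberField L] (hr : IsTotallyReal L) (x : 𝓞 L)
    (hx : x ≠ 0) : 1 ≤ ∏ w : InfinitePlace L, w (x : L) := by
  have hmult : ∀ w : InfinitePlace L, w.mult = 1 := fun w => IsTotallyReal.mult_eq w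
  have h1 := InfinitePlace.prod_eq_abs_norm (x : L)
  have h3 : ∏ w : InfinitePlace L, w (x : L) ^ w.mult = ∏ w : InfinitePlace L, w (x : L) :=
    Finset.prod_congr rfl fun w _ => by rw [hmult, pow_one]
  rw [h3] at h1
  rw [h1, ← Algebra.coe_norm_int x]
  have h4 : Algebra.norm ℤ x ≠ 0 := by
    rw [Ne, Algebra.norm_eq_zero_iff]; exact hx
  have h5 : (1 : ℤ) ≤ |Algebra.norm ℤ x| := Int.one_le_abs h4
  have h6 : (1 : ℚ) ≤ |((Algebra.norm ℤ x : ℤ) : ℚ)| := by
    rw [← Int.cast_abs]; exact_mod_cast h5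
  exact_mod_cast h6

/-- The number of nonzero integers of a totally real field in a box. -/
theorem card_box_weighted {L : Type} [Field L] [NumberField L] (hr : IsTotallyReal L)
    (S : Finset (𝓞 L)) (X : InfinitePlace L → ℝ) (hX : ∀ w, 0 < X w) (h0 : ∀ x ∈ S, x ≠ 0)
    (hb : ∀ x ∈ S, ∀ w : InfinitePlace L, w (x : L) ≤ X w) :
    (S.card : ℝ) ≤ 4 ^ finrank ℚ L * ∏ w, X w := by
  classical
  set d := finrank ℚ L with hd
  have hdpos : 0 < d := finrank_pos
  have hcard : Fintype.card (InfinitePlace L) = d := card_places hr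
  have hne : (Finset.univ : Finset (InfinitePlace L)).Nonempty := by
    rw [← Finset.card_pos, Finset.card_univ, hcard]; exact hdpos
  have hP0 : 0 < ∏ w, X w := Finset.prod_pos fun w _ => hX w
  rcases lt_or_ge (∏ w, X w) 1 with hP | hP
  · have hS : S = ∅ := by
      rw [Finset.eq_empty_iff_forall_notMem]
      intro x hx
      have h1 := one_le_prod hr x (h0 x hx)
      have h2 : ∏ w : InfinitePlace L, w (x : L) ≤ ∏ w, X w :=
        Finset.prod_le_prod (fun w _ => apply_nonneg w _) fun w _ => hb x hx w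
      linarith
    rw [hS, Finset.card_empty]
    push_cast
    positivity
  set P := ∏ w, X w with hPdef
  set r : ℝ := P ^ (1 / (d : ℝ)) with hr'
  have hr1 : 1 ≤ r := Real.one_le_rpow hP (by positivity)
  have hr0 : 0 < r := by linarith
  have hrd : r ^ d = P := by
    rw [hr', ← Real.rpow_natCast, ← Real.rpow_mul hP0.le]
    have : (1 / (d : ℝ)) * (d : ℝ) = 1 := by field_simp
    rw [this, Real.rpow_one]
  let q : InfinitePlace L → ℝ := fun w => X w / r
  have hq0 : ∀ w, 0 < q w := fun w => div_pos (hX w) hr0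
  have hqprod : ∏ w, q w = 1 := by
    simp only [q]
    rw [Finset.prod_div_distrib, Finset.prod_const, Finset.card_univ, hcard, hrd]
    exact div_self hP0.ne'
  set m : ℕ := ⌊r⌋₊ with hm
  have hmr : (m : ℝ) ≤ r := Nat.floor_le hr0.le
  have hrm : r < m + 1 := Nat.lt_floor_add_one r
  let f : 𝓞 L → (InfinitePlace L → ℤ) := fun x w => ⌊(w.embedding (x : L)).re / q w⌋
  let T : Finset (InfinitePlace L → ℤ) := Fintype.piFinset fun _ => Finset.Icc (-((m : ℤ) + 1)) m
  have hT : T.card = (2 * m + 2) ^ d := by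
    simp only [T, Fintype.card_piFinset, Int.card_Icc, Finset.prod_const, Finset.card_univ, hcard]
    congr 1
    omega
  have hST : S.card ≤ T.card := by
    refine Finset.card_le_card_of_injOn f ?_ ?_
    · intro x hx
      simp only [T, Finset.mem_coe, Fintype.mem_piFinset, Finset.mem_Icc, f]
      intro w
      have h1 := hb x hx w
      rw [← InfinitePlace.norm_embedding_eq w] at h1
      have h2 := abs_le.mp ((Complex.abs_re_le_norm (w.embedding (x : L))).trans h1)
      have h3 : X w = r * q w := by simp only [q]; field_simp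
      rw [h3] at h2
      have h4 : -r ≤ (w.embedding (x : L)).re / q w := by
        rw [le_div_iff₀ (hq0 w)]; linarith [h2.1]
      have h5 : (w.embedding (x : L)).re / q w ≤ r := by
        rw [div_le_iff₀ (hq0 w)]; exact h2.2
      refine ⟨?_, ?_⟩
      · rw [Int.le_floor]; push_cast; linarith
      · have h6 : (⌊(w.embedding (x : L)).re / q w⌋ : ℤ) < (m : ℤ) + 1 := by
          rw [Int.floor_lt]; push_cast; linarith
        omega
    · intro x hx y hy hxy
      by_contra hne'
      have hxy0 : x - y ≠ 0 := sub_ne_zero.mpr hne'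
      have h1 := one_le_prod hr (x - y) hxy0
      have h2 : ∏ w : InfinitePlace L, w ((x - y : 𝓞 L) : L) < ∏ w, q w := by
        refine Finset.prod_lt_prod_of_nonempty (fun w _ => ?_) (fun w _ => ?_) hne
        · rw [InfinitePlace.pos_iff]
          intro h
          exact hxy0 (RingOfIntegers.ext (h.trans (map_zero _).symm))
        · have hw := congrFun hxy w
          simp only [f] at hw
          have h3 := Int.abs_sub_lt_one_of_floor_eq_floor hw
          rw [← sub_div, abs_div, abs_of_pos (hq0 w), div_lt_one (hq0 w)] at h3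
          have h4 : ((x - y : 𝓞 L) : L) = (x : L) - y := map_sub (algebraMap (𝓞 L) L) x y
          rw [h4, ← InfinitePlace.norm_embedding_eq w]
          have hreal := real_of_totallyReal hr w.embedding ((x : L) - y)
          rw [Complex.conj_eq_iff_re] at hreal
          rw [← hreal, Complex.norm_real, map_sub, Complex.sub_re, Real.norm_eq_abs]
          exact h3
      rw [hqprod] at h2
      linarith
  calc (S.card : ℝ) ≤ T.card := by exact_mod_cast hST
    _ = (2 * m + 2) ^ d := by rw [hT]; push_cast; ring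
    _ ≤ (4 * r) ^ d := by gcongr; linarith
    _ = 4 ^ d * P := by rw [mul_pow, hrd]

/-- The number of exponent vectors with bounded average. -/
theorem card_types {V : Type*} [Fintype V] [DecidableEq V] (F : ℕ) (T : Finset (V → ℕ))
    (hT : ∀ n ∈ T, ∑ v, n v ≤ Fintype.card V * F) :
    (T.card : ℝ) ≤ (4 * (F + 1)) ^ Fintype.card V := by
  classical
  set d := Fintype.card V with hd
  set z : ℝ := 1 - 1 / (2 * (F + 1)) with hz
  have hF : (0 : ℝ) ≤ F := Nat.cast_nonneg F
  have hF1 : (0 : ℝ) < 2 * (F + 1) := by linarith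
  have hinv : 1 / (2 * ((F : ℝ) + 1)) ≤ 1 / 2 := by
    apply one_div_le_one_div_of_le <;> linarith
  have hinv0 : 0 < 1 / (2 * ((F : ℝ) + 1)) := by positivity
  have hz0 : 0 < z := by rw [hz]; linarith
  have hz1 : z < 1 := by rw [hz]; linarith
  have hzF : 1 / 2 ≤ z ^ F := by
    have h1 := one_add_mul_le_pow (a := -(1 / (2 * ((F : ℝ) + 1)))) (by linarith) F
    have h2 : (1 : ℝ) + -(1 / (2 * (F + 1))) = z := by rw [hz]; ring
    rw [h2] at h1
    refine le_trans ?_ h1
    have h3 : (F : ℝ) * (1 / (2 * (F + 1))) ≤ 1 / 2 := by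
      rw [mul_one_div, div_le_div_iff₀ hF1 (by norm_num)]
      linarith
    linarith
  have hgeom : ∀ m : ℕ, ∑ j ∈ Finset.range m, z ^ j ≤ 2 * (F + 1) := by
    intro m
    have h1 := mul_neg_geom_sum z m
    have h2 : 1 - z = 1 / (2 * (F + 1)) := by rw [hz]; ring
    rw [h2] at h1
    have h3 : ∑ j ∈ Finset.range m, z ^ j = (1 - z ^ m) * (2 * (F + 1)) := by
      rw [← h1]; field_simp
    rw [h3]
    have h4 : 0 < z ^ m := pow_pos hz0 m
    nlinarith
  have hsub : T ⊆ Fintype.piFinset fun _ : V => Finset.range (d * F + 1) := by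
    intro n hn
    rw [Fintype.mem_piFinset]
    intro v
    rw [Finset.mem_range]
    have h1 : n v ≤ ∑ v, n v := Finset.single_le_sum (fun _ _ => Nat.zero_le _) (Finset.mem_univ v)
    have := hT n hn
    omega
  have key : (T.card : ℝ) * z ^ (d * F) ≤ (2 * (F + 1)) ^ d := by
    calc (T.card : ℝ) * z ^ (d * F) = ∑ _n ∈ T, z ^ (d * F) := by
          rw [Finset.sum_const, nsmul_eq_mul]
      _ ≤ ∑ n ∈ T, ∏ v, z ^ n v := by
          refine Finset.sum_le_sum fun n hn => ?_
          rw [Finset.prod_pow_eq_pow_sum]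
          exact pow_le_pow_of_le_one hz0.le hz1.le (hT n hn)
      _ ≤ ∑ n ∈ Fintype.piFinset fun _ : V => Finset.range (d * F + 1), ∏ v, z ^ n v :=
          Finset.sum_le_sum_of_subset_of_nonneg hsub fun n _ _ => by positivity
      _ = ∏ _v : V, ∑ j ∈ Finset.range (d * F + 1), z ^ j :=
          (Finset.prod_univ_sum _ _).symm
      _ ≤ ∏ _v : V, (2 * ((F : ℝ) + 1)) :=
          Finset.prod_le_prod (fun _ _ => by positivity) fun _ _ => hgeom _
      _ = _ := by rw [Finset.prod_const, Finset.card_univ]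
  have h2 : (1 / 2 : ℝ) ^ d ≤ z ^ (d * F) := by
    rw [mul_comm, pow_mul]
    exact pow_le_pow_left₀ (by norm_num) hzF d
  have h3 : (T.card : ℝ) * (1 / 2) ^ d ≤ (2 * (F + 1)) ^ d :=
    le_trans (by gcongr) key
  have h4 : ((4 : ℝ) * (F + 1)) ^ d = (2 * (F + 1)) ^ d * 2 ^ d := by
    rw [← mul_pow]; ring
  rw [h4]
  have h5 : (T.card : ℝ) = T.card * (1 / 2) ^ d * 2 ^ d := by
    rw [mul_assoc, ← mul_pow]; norm_num
  rw [h5]
  gcongr

/-- The number of nonzero integers of a totally real field with bounded absolute values and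
bounded norm. -/
theorem card_small_norm {L : Type} [Field L] [NumberField L] (hr : IsTotallyReal L)
    (Z : Finset (𝓞 L)) (F : ℕ) (Y : ℝ) (hY : 1 ≤ Y) (h0 : ∀ z ∈ Z, z ≠ 0)
    (hb : ∀ z ∈ Z, ∀ w : InfinitePlace L, w (z : L) ≤ 3 ^ F)
    (hn : ∀ z ∈ Z, ∏ w : InfinitePlace L, w (z : L) ≤ Y ^ finrank ℚ L) :
    (Z.card : ℝ) ≤ (48 * (F + 1) * Y) ^ finrank ℚ L := by
  classical
  set d := finrank ℚ L with hd
  have hcard : Fintype.card (InfinitePlace L) = d := card_places hr
  have hpos : ∀ z ∈ Z, ∀ w : InfinitePlace L, 0 < w (z : L) := by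
    intro z hz w
    rw [InfinitePlace.pos_iff]
    intro h
    exact h0 z hz (RingOfIntegers.ext (h.trans (map_zero _).symm))
  have hex : ∀ z ∈ Z, ∃ n : InfinitePlace L → ℕ, ∀ w : InfinitePlace L,
      3 ^ n w * w (z : L) ≤ 3 ^ F ∧ (3 : ℝ) ^ F < 3 ^ (n w + 1) * w (z : L) := by
    intro z hz
    have h1 : ∀ w : InfinitePlace L, ∃ n : ℕ,
        (3 : ℝ) ^ n ≤ 3 ^ F / w (z : L) ∧ 3 ^ F / w (z : L) < 3 ^ (n + 1) := by
      intro w
      refine exists_nat_pow_near ?_ (by norm_num)
      rw [one_le_div (hpos z hz w)]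
      exact hb z hz w
    choose n hn using h1
    refine ⟨n, fun w => ?_⟩
    obtain ⟨h2, h3⟩ := hn w
    rw [le_div_iff₀ (hpos z hz w)] at h2
    rw [div_lt_iff₀ (hpos z hz w)] at h3
    exact ⟨h2, h3⟩
  choose! n hn' using hex
  -- the number of types
  have htypes : ((Z.image n).card : ℝ) ≤ (4 * (F + 1)) ^ d := by
    rw [← hcard]
    refine card_types F _ ?_
    intro e he
    obtain ⟨z, hz, rfl⟩ := mem_image.mp he
    have h1 : (3 : ℝ) ^ (∑ w, n z w) * ∏ w : InfinitePlace L, w (z : L) ≤ 3 ^ (d * F) := by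
      rw [← Finset.prod_pow_eq_pow_sum, ← Finset.prod_mul_distrib, mul_comm d F, pow_mul, ← hcard,
        ← Finset.card_univ, ← Finset.prod_const]
      exact Finset.prod_le_prod (fun w _ => mul_nonneg (by positivity) (hpos z hz w).le)
        fun w _ => (hn' z hz w).1
    have h2 := one_le_prod hr z (h0 z hz)
    have h3 : (3 : ℝ) ^ (∑ w, n z w) ≤ 3 ^ (d * F) := by
      have : (0 : ℝ) < 3 ^ (∑ w, n z w) := by positivity
      nlinarith
    rw [hcard]
    exact (pow_le_pow_iff_right₀ (by norm_num : (1 : ℝ) < 3)).mp h3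
  -- the fibres
  have hfib : ∀ e ∈ Z.image n, ((Z.filter (fun z => n z = e)).card : ℝ) ≤ (12 * Y) ^ d := by
    intro e he
    obtain ⟨z0, hz0, rfl⟩ := mem_image.mp he
    have h1 := card_box_weighted hr (Z.filter (fun z => n z = n z0))
      (fun w => 3 ^ F / 3 ^ n z0 w) (fun w => by positivity)
      (fun x hx => h0 x (mem_filter.mp hx).1) (fun x hx w => by
        obtain ⟨hxZ, hxn⟩ := mem_filter.mp hx
        rw [le_div_iff₀ (by positivity), mul_comm, ← hxn]
        exact (hn' x hxZ w).1)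
    refine h1.trans ?_
    have h2 : ∏ w, ((3 : ℝ) ^ F / 3 ^ n z0 w) ≤ ∏ w : InfinitePlace L, (3 * w (z0 : L)) := by
      refine Finset.prod_le_prod (fun w _ => by positivity) fun w _ => ?_
      rw [div_le_iff₀ (by positivity)]
      have := (hn' z0 hz0 w).2.le
      calc (3 : ℝ) ^ F ≤ 3 ^ (n z0 w + 1) * w (z0 : L) := this
        _ = _ := by ring
    rw [Finset.prod_mul_distrib, Finset.prod_const, Finset.card_univ, hcard] at h2
    have h3 := hn z0 hz0
    calc (4 : ℝ) ^ d * ∏ w, ((3 : ℝ) ^ F / 3 ^ n z0 w)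
        ≤ 4 ^ d * (3 ^ d * ∏ w : InfinitePlace L, w (z0 : L)) := by gcongr
      _ ≤ 4 ^ d * (3 ^ d * Y ^ d) := by gcongr
      _ = (12 * Y) ^ d := by rw [← mul_pow, ← mul_pow]; ring
  have h1 : (Z.card : ℝ) = ∑ e ∈ Z.image n, ((Z.filter (fun z => n z = e)).card : ℝ) := by
    rw [Finset.card_eq_sum_card_image n Z]
    push_cast
    rfl
  calc (Z.card : ℝ) = ∑ e ∈ Z.image n, ((Z.filter (fun z => n z = e)).card : ℝ) := h1
    _ ≤ ∑ _e ∈ Z.image n, (12 * Y) ^ d := Finset.sum_le_sum hfib
    _ = (Z.image n).card * (12 * Y) ^ d := by rw [Finset.sum_const, nsmul_eq_mul]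
    _ ≤ (4 * (F + 1)) ^ d * (12 * Y) ^ d := by gcongr
    _ = _ := by rw [← mul_pow]; ring

end Q143.RSP
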