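import Mathlib
import Pool.Agent.Q143.RSP.Box

/-!
Totally real fields with bounded root discriminant have many integers in a cube with small norm.
-/

set_option autoImplicit false

open NumberField Module Finset Pool.Agent.TeamU Q143.KF

namespace Q143.RSP

theorem sum_third (a n : ℕ) :
    ∑ j ∈ Finset.range n, ((1 : ℝ) / 3) ^ (max a j - min a j) ≤ 3 := by
  classical
  have hgeom : ∀ m : ℕ, ∑ j ∈ Finset.range m, ((1 : ℝ) / 3) ^ j ≤ 3 / 2 := by
    intro m
    have h1 := mul_neg_geom_sum ((1 : ℝ) / 3) m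
    have h4 : 0 < ((1 : ℝ) / 3) ^ m := by positivity
    linarith
  rw [← Finset.sum_filter_add_sum_filter_not (Finset.range n) (fun j => j ≤ a)]
  have h1 : ∑ j ∈ (Finset.range n).filter (fun j => j ≤ a),
      ((1 : ℝ) / 3) ^ (max a j - min a j) ≤ 3 / 2 := by
    have h2 : ∑ j ∈ (Finset.range n).filter (fun j => j ≤ a),
        ((1 : ℝ) / 3) ^ (max a j - min a j) =
        ∑ i ∈ ((Finset.range n).filter (fun j => j ≤ a)).image (fun j => a - j),
          ((1 : ℝ) / 3) ^ i := by
      rw [Finset.sum_image]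
      · refine Finset.sum_congr rfl fun j hj => ?_
        have := (mem_filter.mp hj).2
        congr 1
        omega
      · intro x hx y hy hxy
        have h3 := (mem_filter.mp hx).2
        have h4 := (mem_filter.mp hy).2
        simp only at hxy
        omega
    rw [h2]
    refine le_trans (Finset.sum_le_sum_of_subset_of_nonneg (t := Finset.range (a + 1)) ?_
      fun _ _ _ => by positivity) (hgeom _)
    intro i hi
    obtain ⟨j, hj, rfl⟩ := mem_image.mp hi
    rw [Finset.mem_range]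
    omega
  have h2 : ∑ j ∈ (Finset.range n).filter (fun j => ¬ j ≤ a),
      ((1 : ℝ) / 3) ^ (max a j - min a j) ≤ 3 / 2 := by
    have h2 : ∑ j ∈ (Finset.range n).filter (fun j => ¬ j ≤ a),
        ((1 : ℝ) / 3) ^ (max a j - min a j) =
        ∑ i ∈ ((Finset.range n).filter (fun j => ¬ j ≤ a)).image (fun j => j - a),
          ((1 : ℝ) / 3) ^ i := by
      rw [Finset.sum_image]
      · refine Finset.sum_congr rfl fun j hj => ?_
        have := (mem_filter.mp hj).2
        congr 1
        omega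
      · intro x hx y hy hxy
        have h3 := (mem_filter.mp hx).2
        have h4 := (mem_filter.mp hy).2
        simp only at hxy
        omega
    rw [h2]
    refine le_trans (Finset.sum_le_sum_of_subset_of_nonneg (t := Finset.range n) ?_
      fun _ _ _ => by positivity) (hgeom _)
    intro i hi
    obtain ⟨j, hj, rfl⟩ := mem_image.mp hi
    have := Finset.mem_range.mp (mem_filter.mp hj).1
    rw [Finset.mem_range]
    omega
  linarith

/-- Totally real fields with bounded root discriminant have many integers in a cube with small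
norm. -/
theorem many_small_norm (C : ℕ) : ∀ (L : Type) [Field L] [NumberField L],
    IsTotallyReal L → (discr L).natAbs ≤ C ^ finrank ℚ L → ∀ M : ℕ,
    finrank ℚ L * M + 1 ≤ 2 ^ finrank ℚ L → ∀ Y : ℝ, 4 * ((C : ℝ) + 1) ≤ Y →
    ∃ A : Finset (𝓞 L),
      ((M + 1) * Y / (384 * ((C : ℝ) + 1) ^ 2)) ^ finrank ℚ L ≤ A.card ∧
      ∀ x ∈ A, x ≠ 0 ∧ (∀ w : InfinitePlace L, w (x : L) ≤ Y * 9 ^ M) ∧
        ∏ w : InfinitePlace L, w (x : L) ≤ Y ^ finrank ℚ L := by
  classical
  intro L _ _ hr hD M hM Y hY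
  set c : ℝ := (C : ℝ) + 1 with hc
  have hc1 : 1 ≤ c := by rw [hc]; linarith [(Nat.cast_nonneg C : (0 : ℝ) ≤ C)]
  have hc0 : 0 < c := by linarith
  set d := finrank ℚ L with hd
  have hdpos : 0 < d := finrank_pos
  have hcard : Fintype.card (InfinitePlace L) = d := card_places hr
  have hmult : ∀ w : InfinitePlace L, w.mult = 1 := fun w => IsTotallyReal.mult_eq w
  have hY0 : 0 < Y := by linarith
  have hsq : √|(discr L : ℝ)| < c ^ d := by
    rw [Real.sqrt_lt' (by positivity)]
    have h6 : |(discr L : ℝ)| = ((discr L).natAbs : ℝ) := by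
      rw [Nat.cast_natAbs]; push_cast; rfl
    rw [h6]
    have h7 : (discr L).natAbs < (C + 1) ^ d := lt_of_le_of_lt hD
      (Nat.pow_lt_pow_left (by omega) hdpos.ne')
    have h8 : ((discr L).natAbs : ℝ) < c ^ d := by rw [hc]; exact_mod_cast h7
    have h9 : (1 : ℝ) ≤ c ^ d := one_le_pow₀ hc1
    nlinarith
  -- exponent vectors
  let box : Finset (InfinitePlace L → ℕ) :=
    Fintype.piFinset fun _ : InfinitePlace L => Finset.range (M + 1)
  have hboxcard : box.card = (M + 1) ^ d := by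
    simp only [box, Fintype.card_piFinset, Finset.card_range, Finset.prod_const,
      Finset.card_univ, hcard]
  have hbox : ∀ e ∈ box, ∀ w, e w ≤ M := by
    intro e he w
    have := Fintype.mem_piFinset.mp he w
    rw [Finset.mem_range] at this
    omega
  have hboxne : box.Nonempty := by
    rw [← Finset.card_pos, hboxcard]; positivity
  -- fix the sum
  let sm : (InfinitePlace L → ℕ) → ℕ := fun e => ∑ w, e w
  obtain ⟨s0, hs0, hs0max⟩ := Finset.exists_max_image (box.image sm)
    (fun s => (box.filter (fun e => sm e = s)).card) (hboxne.image sm)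
  set E := box.filter (fun e => sm e = s0) with hE
  have hEcard : box.card ≤ E.card * 2 ^ d := by
    refine (Finset.card_le_mul_card_image box E.card hs0max).trans
      (Nat.mul_le_mul_left _ ?_)
    have h1 : box.image sm ⊆ Finset.range (d * M + 1) := by
      intro s hs
      obtain ⟨e, he, rfl⟩ := mem_image.mp hs
      rw [Finset.mem_range]
      have : ∑ w, e w ≤ ∑ _w : InfinitePlace L, M := Finset.sum_le_sum fun w _ => hbox e he w
      rw [Finset.sum_const, Finset.card_univ, hcard, smul_eq_mul] at this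
      exact Nat.lt_succ_of_le this
    calc _ ≤ (Finset.range (d * M + 1)).card := card_le_card h1
      _ = d * M + 1 := card_range _
      _ ≤ _ := hM
  have hEpos : 0 < E.card := by
    have h1 : 0 < box.card := card_pos.mpr hboxne
    rcases Nat.eq_zero_or_pos E.card with h | h
    · rw [h, zero_mul] at hEcard; omega
    · exact h
  -- the scale
  set t : ℝ := Y * (9 : ℝ) ^ (-((s0 : ℝ) / d)) with ht
  have ht0 : 0 < t := by positivity
  have htY : t ≤ Y := by
    rw [ht]
    have : (9 : ℝ) ^ (-((s0 : ℝ) / d)) ≤ 1 :=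
      Real.rpow_le_one_of_one_le_of_nonpos (by norm_num) (by
        have : 0 ≤ (s0 : ℝ) / d := by positivity
        linarith)
    nlinarith
  have htpow : t ^ d * 9 ^ s0 = Y ^ d := by
    rw [ht, mul_pow, ← Real.rpow_natCast ((9 : ℝ) ^ (-((s0 : ℝ) / d))),
      ← Real.rpow_mul (by norm_num)]
    have h1 : -((s0 : ℝ) / d) * (d : ℝ) = -(s0 : ℝ) := by
      have : (d : ℝ) ≠ 0 := by positivity
      field_simp
    rw [h1, Real.rpow_neg (by norm_num), Real.rpow_natCast, mul_assoc,
      inv_mul_cancel₀ (by positivity), mul_one]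
  set G : ℝ := Y / (4 * c) with hG
  have hG1 : 1 ≤ G := by
    rw [hG, one_le_div (by positivity)]; exact hY
  -- the integers in the boxes
  have hex : ∀ e ∈ E, ∃ S : Finset (𝓞 L), G ^ d ≤ S.card ∧ ∀ x ∈ S, x ≠ 0 ∧
      ∀ w : InfinitePlace L, w (x : L) ≤ t * 9 ^ e w := by
    intro e he
    obtain ⟨heb, hes⟩ := mem_filter.mp he
    have hes : ∑ w, e w = s0 := hes
    have hco : ∀ w, ((Real.toNNReal (t * 9 ^ e w / 2) : NNReal) : ℝ) = t * 9 ^ e w / 2 := fun w =>
      Real.coe_toNNReal _ (by positivity)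
    have hprod : ∏ w : InfinitePlace L, (t * 9 ^ e w / 2) = (Y / 2) ^ d := by
      rw [Finset.prod_div_distrib, Finset.prod_mul_distrib, Finset.prod_const, Finset.prod_const,
        Finset.card_univ, hcard, Finset.prod_pow_eq_pow_sum, hes, htpow, div_pow]
    obtain ⟨S, hS, hSw⟩ := many_integers L (fun w => Real.toNNReal (t * 9 ^ e w / 2))
      ⌊(2 * G) ^ d⌋₊ (by
        simp only [hmult, pow_one, hco]
        rw [hprod]
        calc (⌊(2 * G) ^ d⌋₊ : ℝ) * √|(discr L : ℝ)| ≤ (2 * G) ^ d * √|(discr L : ℝ)| := by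
              gcongr
              exact Nat.floor_le (by positivity)
          _ < (2 * G) ^ d * c ^ d := by
              apply mul_lt_mul_of_pos_left hsq; positivity
          _ = (Y / 2) ^ d := by
              rw [← mul_pow, hG]
              congr 1
              field_simp
              ring)
    refine ⟨S.erase 0, ?_, ?_⟩
    · have h1 : S.card - 1 ≤ (S.erase 0).card := Finset.pred_card_le_card_erase
      have h2 : ⌊(2 * G) ^ d⌋₊ ≤ (S.erase 0).card := by omega
      have h3 : (⌊(2 * G) ^ d⌋₊ : ℝ) ≤ (S.erase 0).card := by exact_mod_cast h2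
      have h4 : (2 * G) ^ d < (⌊(2 * G) ^ d⌋₊ : ℝ) + 1 := Nat.lt_floor_add_one _
      have h5 : (1 : ℝ) ≤ G ^ d := one_le_pow₀ hG1
      have h6 : (2 : ℝ) ≤ 2 ^ d := by
        calc (2 : ℝ) = 2 ^ 1 := by norm_num
          _ ≤ 2 ^ d := pow_le_pow_right₀ (by norm_num) hdpos
      have h7 : (2 * G) ^ d = 2 ^ d * G ^ d := mul_pow _ _ _
      nlinarith
    · intro x hx
      obtain ⟨hx0, hxS⟩ := Finset.mem_erase.mp hx
      refine ⟨hx0, fun w => ?_⟩
      have h1 := hSw x hxS w
      rw [hco] at h1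
      linarith
  choose! S hScard hS using hex
  refine ⟨E.biUnion S, ?_, ?_⟩
  swap
  · intro x hx
    obtain ⟨e, he, hxe⟩ := Finset.mem_biUnion.mp hx
    obtain ⟨hx0, hxw⟩ := hS e he x hxe
    obtain ⟨heb, hes⟩ := mem_filter.mp he
    have hes : ∑ w, e w = s0 := hes
    refine ⟨hx0, fun w => ?_, ?_⟩
    · refine (hxw w).trans ?_
      have : (9 : ℝ) ^ e w ≤ 9 ^ M := pow_le_pow_right₀ (by norm_num) (hbox e heb w)
      gcongr
    · calc ∏ w : InfinitePlace L, w (x : L) ≤ ∏ w : InfinitePlace L, (t * 9 ^ e w) :=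
            Finset.prod_le_prod (fun w _ => apply_nonneg w _) fun w _ => hxw w
        _ = Y ^ d := by
            rw [Finset.prod_mul_distrib, Finset.prod_const, Finset.card_univ, hcard,
              Finset.prod_pow_eq_pow_sum, hes, htpow]
  -- Cauchy–Schwarz
  set A := E.biUnion S with hA
  let m : 𝓞 L → ℕ := fun x => (E.filter (fun e => x ∈ S e)).card
  have hm1 : ∑ x ∈ A, m x = ∑ e ∈ E, (S e).card := by
    simp only [m, Finset.card_filter]
    rw [Finset.sum_comm]
    refine Finset.sum_congr rfl fun e he => ?_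
    rw [← Finset.card_filter]
    congr 1
    ext x
    rw [Finset.mem_filter]
    exact ⟨fun h => h.2, fun h => ⟨Finset.mem_biUnion.mpr ⟨e, he, h⟩, h⟩⟩
  have hm2 : ∑ x ∈ A, m x ^ 2 = ∑ e ∈ E, ∑ e' ∈ E, (S e ∩ S e').card := by
    have h1 : ∀ x, m x ^ 2 = ∑ e ∈ E, ∑ e' ∈ E, (if x ∈ S e ∩ S e' then 1 else 0) := by
      intro x
      simp only [m, Finset.card_filter, sq]
      rw [Finset.sum_mul_sum]
      refine Finset.sum_congr rfl fun e _ => Finset.sum_congr rfl fun e' _ => ?_
      by_cases h1 : x ∈ S e <;> by_cases h2 : x ∈ S e' <;> simp [h1, h2]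
    simp only [h1]
    rw [Finset.sum_comm]
    refine Finset.sum_congr rfl fun e he => ?_
    rw [Finset.sum_comm]
    refine Finset.sum_congr rfl fun e' _ => ?_
    rw [← Finset.card_filter]
    congr 1
    ext x
    rw [Finset.mem_filter]
    exact ⟨fun h => h.2, fun h =>
      ⟨Finset.mem_biUnion.mpr ⟨e, he, (Finset.mem_inter.mp h).1⟩, h⟩⟩
  have hpair : ∀ e ∈ E, ∑ e' ∈ E, ((S e ∩ S e').card : ℝ) ≤ (12 * Y) ^ d := by
    intro e he
    obtain ⟨heb, hes⟩ := mem_filter.mp he
    have hes : ∑ w, e w = s0 := hes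
    have h1 : ∀ e' ∈ E, ((S e ∩ S e').card : ℝ) ≤
        (4 * Y) ^ d * ∏ w, ((1 : ℝ) / 3) ^ (max (e w) (e' w) - min (e w) (e' w)) := by
      intro e' he'
      obtain ⟨heb', hes'⟩ := mem_filter.mp he'
      have hes' : ∑ w, e' w = s0 := hes'
      have h2 := card_box_weighted hr (S e ∩ S e') (fun w => t * 9 ^ (min (e w) (e' w)))
        (fun w => by positivity) (fun x hx => (hS e he x (Finset.mem_inter.mp hx).1).1)
        (fun x hx w => by
          obtain ⟨hx1, hx2⟩ := Finset.mem_inter.mp hx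
          rcases min_choice (e w) (e' w) with h | h
          · rw [h]; exact (hS e he x hx1).2 w
          · rw [h]; exact (hS e' he' x hx2).2 w)
      refine h2.trans (le_of_eq ?_)
      have h7 : (4 * Y) ^ d = 4 ^ d * (t ^ d * 9 ^ s0) := by rw [htpow, mul_pow]
      rw [Finset.prod_mul_distrib, Finset.prod_const, Finset.card_univ, hcard,
        Finset.prod_pow_eq_pow_sum, Finset.prod_pow_eq_pow_sum, h7]
      have h3 : 2 * ∑ w, min (e w) (e' w) + ∑ w, (max (e w) (e' w) - min (e w) (e' w)) =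
          2 * s0 := by
        rw [Finset.mul_sum, ← Finset.sum_add_distrib]
        have h4 : ∀ w, 2 * min (e w) (e' w) + (max (e w) (e' w) - min (e w) (e' w)) =
            e w + e' w := by intro w; omega
        simp only [h4]
        rw [Finset.sum_add_distrib, hes, hes']; ring
      have h5 : (9 : ℝ) ^ (∑ w, min (e w) (e' w)) = 9 ^ s0 *
          ((1 : ℝ) / 3) ^ (∑ w, (max (e w) (e' w) - min (e w) (e' w))) := by
        have h6 : (9 : ℝ) = 3 ^ 2 := by norm_num
        rw [h6, ← pow_mul, ← pow_mul, ← h3, pow_add, mul_assoc, ← mul_pow]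
        norm_num
      rw [h5]
      generalize ((1 : ℝ) / 3) ^ (∑ w, (max (e w) (e' w) - min (e w) (e' w))) = y
      generalize t ^ d = y'
      ring
    calc ∑ e' ∈ E, ((S e ∩ S e').card : ℝ)
        ≤ ∑ e' ∈ E, (4 * Y) ^ d *
          ∏ w, ((1 : ℝ) / 3) ^ (max (e w) (e' w) - min (e w) (e' w)) := Finset.sum_le_sum h1
      _ ≤ ∑ e' ∈ box, (4 * Y) ^ d *
          ∏ w, ((1 : ℝ) / 3) ^ (max (e w) (e' w) - min (e w) (e' w)) :=
          Finset.sum_le_sum_of_subset_of_nonneg (Finset.filter_subset _ _)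
            fun _ _ _ => by positivity
      _ = (4 * Y) ^ d * ∏ w : InfinitePlace L, ∑ j ∈ Finset.range (M + 1),
            ((1 : ℝ) / 3) ^ (max (e w) j - min (e w) j) := by
          rw [← Finset.mul_sum, Finset.prod_univ_sum]
      _ ≤ (4 * Y) ^ d * ∏ _w : InfinitePlace L, (3 : ℝ) := by
          gcongr with w _
          exact sum_third _ _
      _ = _ := by
          rw [Finset.prod_const, Finset.card_univ, hcard, ← mul_pow]; ring
  have hCS : (∑ x ∈ A, (m x : ℝ)) ^ 2 ≤ A.card * ∑ x ∈ A, (m x : ℝ) ^ 2 :=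
    sq_sum_le_card_mul_sum_sq
  have h1 : ∑ x ∈ A, (m x : ℝ) = ∑ e ∈ E, ((S e).card : ℝ) := by exact_mod_cast hm1
  have h2 : ∑ x ∈ A, (m x : ℝ) ^ 2 = ∑ e ∈ E, ∑ e' ∈ E, ((S e ∩ S e').card : ℝ) := by
    exact_mod_cast hm2
  have h3 : (E.card : ℝ) * G ^ d ≤ ∑ x ∈ A, (m x : ℝ) := by
    rw [h1, ← nsmul_eq_mul, ← Finset.sum_const]
    exact Finset.sum_le_sum hScard
  have h4 : ∑ x ∈ A, (m x : ℝ) ^ 2 ≤ E.card * (12 * Y) ^ d := by
    rw [h2, ← nsmul_eq_mul, ← Finset.sum_const]
    exact Finset.sum_le_sum hpair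
  have hE0 : (0 : ℝ) < E.card := by exact_mod_cast hEpos
  have h5 : ((E.card : ℝ) * G ^ d) ^ 2 ≤ A.card * (E.card * (12 * Y) ^ d) := by
    calc ((E.card : ℝ) * G ^ d) ^ 2 ≤ (∑ x ∈ A, (m x : ℝ)) ^ 2 := by gcongr
      _ ≤ A.card * ∑ x ∈ A, (m x : ℝ) ^ 2 := hCS
      _ ≤ _ := by gcongr
  have h6 : (E.card : ℝ) * (G ^ d) ^ 2 ≤ A.card * (12 * Y) ^ d := by
    have h7 : (E.card : ℝ) * (E.card * (G ^ d) ^ 2) ≤ E.card * (A.card * (12 * Y) ^ d) := by
      calc (E.card : ℝ) * (E.card * (G ^ d) ^ 2) = ((E.card : ℝ) * G ^ d) ^ 2 := by ring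
        _ ≤ A.card * (E.card * (12 * Y) ^ d) := h5
        _ = _ := by ring
    exact le_of_mul_le_mul_left h7 hE0
  have h8 : ((M : ℝ) + 1) ^ d ≤ E.card * 2 ^ d := by
    rw [hboxcard] at hEcard
    exact_mod_cast hEcard
  have h9 : ((M + 1) * Y / (384 * c ^ 2)) ^ d * (24 * Y) ^ d =
      ((M : ℝ) + 1) ^ d * (G ^ d) ^ 2 := by
    rw [← mul_pow, ← pow_mul, mul_comm d 2, pow_mul, ← mul_pow, hG]
    congr 1
    field_simp
    ring
  have h10 : ((M + 1) * Y / (384 * c ^ 2)) ^ d * (24 * Y) ^ d ≤ A.card * (24 * Y) ^ d := by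
    rw [h9]
    calc ((M : ℝ) + 1) ^ d * (G ^ d) ^ 2 ≤ (E.card * 2 ^ d) * (G ^ d) ^ 2 := by gcongr
      _ = (E.card * (G ^ d) ^ 2) * 2 ^ d := by ring
      _ ≤ (A.card * (12 * Y) ^ d) * 2 ^ d := by gcongr
      _ = A.card * (24 * Y) ^ d := by rw [mul_assoc, ← mul_pow]; ring
  exact le_of_mul_le_mul_right h10 (by positivity)

end Q143.RSP
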