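import Mathlib
import Pool.Agent.Q143.KF.Count
import Pool.Agent.Q143.RSP.Lower

/-!
Finite sets of positive algebraic integers with few `k`-fold sums and few `k`-fold products.
-/

set_option autoImplicit false

open NumberField Module Finset Pool.Agent.TeamU Q143.KF

namespace Q143.RSP

theorem place_neg {L : Type} [Field L] [NumberField L] (w : InfinitePlace L) (x : 𝓞 L) :
    w ((-x : 𝓞 L) : L) = w (x : L) := by
  have h1 : ((-x : 𝓞 L) : L) = -(x : L) := map_neg (algebraMap (𝓞 L) L) x
  rw [h1, ← InfinitePlace.norm_embedding_eq w, map_neg, norm_neg, InfinitePlace.norm_embedding_eq]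

/-- The sets. -/
theorem sets : ∃ c : ℝ, 0 < c ∧ c ≤ 1 ∧ ∀ l M : ℕ, 1 ≤ c * 3 ^ l → ∀ N : ℕ,
    ∃ (L : Type) (_ : Field L) (_ : NumberField L) (φ : L →+* ℝ) (A : Finset ℝ),
      IsTotallyReal L ∧ N ≤ finrank ℚ L ∧ (c * (M + 1) * 3 ^ l) ^ finrank ℚ L ≤ A.card ∧
      (∀ x ∈ A, 0 < x ∧ ∃ y : 𝓞 L, φ (y : L) = x) ∧
      ∀ k : ℕ, 1 ≤ k → ((sums A k).card : ℝ) ≤ (3 * k * 3 ^ (l + 2 * M)) ^ finrank ℚ L ∧
        ((prods A k).card : ℝ) ≤
          (48 * (k * (l + 2 * M) + 1) * 3 ^ (k * l)) ^ finrank ℚ L := by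
  classical
  obtain ⟨C0, hC0⟩ := tower
  set c1 : ℝ := (C0 : ℝ) + 1 with hc1
  have hc11 : 1 ≤ c1 := by rw [hc1]; linarith [(Nat.cast_nonneg C0 : (0 : ℝ) ≤ C0)]
  have hc10 : 0 < c1 := by linarith
  refine ⟨1 / (768 * c1 ^ 2), by positivity, ?_, fun l M hl N => ?_⟩
  · rw [div_le_one (by positivity)]; nlinarith
  have hl' : 768 * c1 ^ 2 ≤ 3 ^ l := by
    rw [div_mul_eq_mul_div, one_mul, one_le_div (by positivity)] at hl
    exact hl
  obtain ⟨L, _, _, hr, -, hN, hdisc⟩ := hC0 (max (max N 4) (M + 1))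
  set d := finrank ℚ L with hd
  have hdN : N ≤ d := le_trans (le_trans (le_max_left _ _) (le_max_left _ _)) hN
  have hd4 : 4 ≤ d := le_trans (le_trans (le_max_right _ _) (le_max_left _ _)) hN
  have hdM : M + 1 ≤ d := (le_max_right _ _).trans hN
  have hcard : Fintype.card (InfinitePlace L) = d := card_places hr
  obtain ⟨A0, hA0card, hA0⟩ := many_small_norm C0 L hr hdisc M (by
    calc d * M + 1 ≤ d * (M + 1) := by nlinarith
      _ ≤ d * d := Nat.mul_le_mul_left _ (by omega)
      _ ≤ 2 ^ d := sq_le_two_pow d hd4) (3 ^ l) (by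
    refine le_trans ?_ hl'
    nlinarith)
  -- a real embedding
  obtain ⟨w0⟩ : Nonempty (InfinitePlace L) := inferInstance
  let φ : L →+* ℝ := InfinitePlace.embedding_of_isReal (hr.isReal w0)
  have hφ0 : ∀ x : 𝓞 L, x ≠ 0 → φ (x : L) ≠ 0 := by
    intro x hx
    rw [Ne, map_eq_zero]
    intro h
    exact hx (RingOfIntegers.ext (h.trans (map_zero _).symm))
  let A : Finset ℝ := A0.image fun x : 𝓞 L => |φ (x : L)|
  have hYM : (3 : ℝ) ^ l * 9 ^ M = 3 ^ (l + 2 * M) := by
    rw [pow_add, pow_mul]; norm_num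
  have hA : ∀ x ∈ A, ∃ y : 𝓞 L, φ (y : L) = x ∧ y ≠ 0 ∧
      (∀ w : InfinitePlace L, w (y : L) ≤ 3 ^ (l + 2 * M)) ∧
      ∏ w : InfinitePlace L, w (y : L) ≤ (3 ^ l) ^ d := by
    intro x hx
    obtain ⟨u, hu, rfl⟩ := mem_image.mp hx
    obtain ⟨h1, h2, h3⟩ := hA0 u hu
    rw [hYM] at h2
    rcases le_or_gt 0 (φ (u : L)) with h | h
    · exact ⟨u, (abs_of_nonneg h).symm, h1, h2, h3⟩
    · refine ⟨-u, ?_, neg_ne_zero.mpr h1, fun w => ?_, ?_⟩
      · rw [abs_of_neg h, ← map_neg]
        rfl
      · rw [place_neg]; exact h2 w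
      · simp only [place_neg]; exact h3
  have hApos : ∀ x ∈ A, 0 < x := by
    intro x hx
    obtain ⟨u, hu, rfl⟩ := mem_image.mp hx
    exact abs_pos.mpr (hφ0 u (hA0 u hu).1)
  have hAcard : A0.card ≤ 2 * A.card := by
    refine Finset.card_le_mul_card_image A0 2 ?_
    intro y hy
    obtain ⟨u, hu, rfl⟩ := mem_image.mp hy
    have h1 : A0.filter (fun v : 𝓞 L => |φ (v : L)| = |φ (u : L)|) ⊆ {u, -u} := by
      intro v hv
      have h2 := (mem_filter.mp hv).2
      rw [mem_insert, mem_singleton]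
      rcases abs_eq_abs.mp h2 with h | h
      · left
        exact RingOfIntegers.ext (φ.injective h)
      · right
        rw [← map_neg] at h
        have h3 := φ.injective h
        refine RingOfIntegers.ext ?_
        rw [h3]
        rfl
    exact (card_le_card h1).trans card_le_two
  refine ⟨L, inferInstance, inferInstance, φ, A, hr, hdN, ?_, ?_, ?_⟩
  · have h1 : (A0.card : ℝ) ≤ 2 * A.card := by exact_mod_cast hAcard
    have h2 : (2 : ℝ) * (1 / (768 * c1 ^ 2) * (M + 1) * 3 ^ l) ^ d ≤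
        ((M + 1) * 3 ^ l / (384 * c1 ^ 2)) ^ d := by
      have h3 : ((M : ℝ) + 1) * 3 ^ l / (384 * c1 ^ 2) =
          2 * (1 / (768 * c1 ^ 2) * (M + 1) * 3 ^ l) := by
        field_simp
        ring
      rw [h3, mul_pow 2]
      have h4 : (2 : ℝ) ≤ 2 ^ d := by
        calc (2 : ℝ) = 2 ^ 1 := by norm_num
          _ ≤ 2 ^ d := pow_le_pow_right₀ (by norm_num) (by omega)
      gcongr
    linarith
  · intro x hx
    obtain ⟨u, hu, -⟩ := hA x hx
    exact ⟨hApos x hx, u, hu⟩
  · intro k hk
    constructor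
    · -- sums
      have hex : ∀ s ∈ sums A k, ∃ y : 𝓞 L, φ (y : L) = s ∧ ∀ w : InfinitePlace L,
          w (y : L) ≤ (k * 3 ^ (l + 2 * M) : ℕ) := by
        intro s hs
        obtain ⟨f, hf, rfl⟩ := mem_image.mp hs
        have hf' : ∀ i, f i ∈ A := fun i => Fintype.mem_piFinset.mp hf i
        have h1 := fun i => hA (f i) (hf' i)
        choose u hu hu0 huw hun using h1
        have hc : ((∑ i, u i : 𝓞 L) : L) = ∑ i, (u i : L) :=
          map_sum (algebraMap (𝓞 L) L) _ _
        refine ⟨∑ i, u i, ?_, fun w => ?_⟩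
        · rw [hc, map_sum]
          exact Finset.sum_congr rfl fun i _ => hu i
        · rw [hc, ← InfinitePlace.norm_embedding_eq w, map_sum]
          refine (norm_sum_le _ _).trans ?_
          calc ∑ i, ‖w.embedding (u i : L)‖ ≤ ∑ _i : Fin k, (3 : ℝ) ^ (l + 2 * M) := by
                refine Finset.sum_le_sum fun i _ => ?_
                rw [InfinitePlace.norm_embedding_eq]
                exact huw i w
            _ = _ := by
                rw [Finset.sum_const, Finset.card_univ, Fintype.card_fin, nsmul_eq_mul]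
                push_cast
                rfl
      choose! y hy hyw using hex
      have hinj : Set.InjOn y (sums A k) := by
        intro s hs s' hs' h
        rw [← hy s hs, ← hy s' hs', h]
      have h1 : (sums A k).card ≤ (2 * (k * 3 ^ (l + 2 * M)) + 1) ^ d := by
        rw [← card_image_of_injOn hinj]
        refine card_box_real hr _ (k * 3 ^ (l + 2 * M)) ?_
        intro x hx w
        obtain ⟨s, hs, rfl⟩ := mem_image.mp hx
        exact hyw s hs w
      have h2 : (sums A k).card ≤ (3 * k * 3 ^ (l + 2 * M)) ^ d := by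
        refine h1.trans (Nat.pow_le_pow_left ?_ _)
        have h3 : 1 ≤ k * 3 ^ (l + 2 * M) := Nat.mul_pos hk (by positivity)
        calc 2 * (k * 3 ^ (l + 2 * M)) + 1 ≤ 3 * (k * 3 ^ (l + 2 * M)) := by omega
          _ = _ := by ring
      exact_mod_cast h2
    · -- products
      have hex : ∀ s ∈ prods A k, ∃ y : 𝓞 L, φ (y : L) = s ∧ y ≠ 0 ∧
          (∀ w : InfinitePlace L, w (y : L) ≤ 3 ^ (k * (l + 2 * M))) ∧
            ∏ w : InfinitePlace L, w (y : L) ≤ (3 ^ (k * l)) ^ d := by
        intro s hs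
        obtain ⟨f, hf, rfl⟩ := mem_image.mp hs
        have hf' : ∀ i, f i ∈ A := fun i => Fintype.mem_piFinset.mp hf i
        have h1 := fun i => hA (f i) (hf' i)
        choose u hu hu0 huw hun using h1
        have hc : ((∏ i, u i : 𝓞 L) : L) = ∏ i, (u i : L) :=
          map_prod (algebraMap (𝓞 L) L) _ _
        have hpow : (3 : ℝ) ^ (k * (l + 2 * M)) = ∏ _i : Fin k, (3 : ℝ) ^ (l + 2 * M) := by
          rw [Finset.prod_const, Finset.card_univ, Fintype.card_fin, ← pow_mul, mul_comm]
        have hpow' : ((3 : ℝ) ^ (k * l)) ^ d = ∏ _i : Fin k, ((3 : ℝ) ^ l) ^ d := by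
          rw [Finset.prod_const, Finset.card_univ, Fintype.card_fin, ← pow_mul, ← pow_mul,
            ← pow_mul]
          congr 1; ring
        refine ⟨∏ i, u i, ?_, Finset.prod_ne_zero_iff.mpr fun i _ => hu0 i, fun w => ?_, ?_⟩
        · rw [hc, map_prod]
          exact Finset.prod_congr rfl fun i _ => hu i
        · rw [hc, map_prod, hpow]
          exact Finset.prod_le_prod (fun i _ => apply_nonneg w _) fun i _ => huw i w
        · simp only [hc, map_prod]
          rw [Finset.prod_comm, hpow']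
          exact Finset.prod_le_prod
            (fun i _ => Finset.prod_nonneg fun w _ => apply_nonneg w _) fun i _ => hun i
      choose! y hy hy0 hyw hyn using hex
      have hinj : Set.InjOn y (prods A k) := by
        intro s hs s' hs' h
        rw [← hy s hs, ← hy s' hs', h]
      rw [← card_image_of_injOn hinj]
      have h1 := card_small_norm hr ((prods A k).image y) (k * (l + 2 * M)) (3 ^ (k * l))
        (one_le_pow₀ (by norm_num)) (by
          intro z hz
          obtain ⟨s, hs, rfl⟩ := mem_image.mp hz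
          exact hy0 s hs) (by
          intro z hz w
          obtain ⟨s, hs, rfl⟩ := mem_image.mp hz
          exact hyw s hs w) (by
          intro z hz
          obtain ⟨s, hs, rfl⟩ := mem_image.mp hz
          exact hyn s hs)
      refine h1.trans (le_of_eq ?_)
      push_cast
      rfl

end Q143.RSP
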