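import Mathlib
import Pool.Agent.Q143.RSP.Sets

/-!
The sum-product inequality with exponent `2` and its `k`-fold version fail for sets of reals.
-/

set_option autoImplicit false

open NumberField Module Finset Q143.KF
open scoped Pointwise

namespace Q143.RSP

theorem rpow_key {a X e : ℝ} {d : ℕ} (ha : 0 ≤ a) (hX : a ^ d ≤ X) (he : 0 ≤ e) :
    (a ^ e) ^ d ≤ X ^ e := by
  calc (a ^ e) ^ d = (a ^ d) ^ e := by
        rw [← Real.rpow_natCast (a ^ e) d, ← Real.rpow_natCast a d, ← Real.rpow_mul ha,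
          ← Real.rpow_mul ha, mul_comm]
    _ ≤ _ := Real.rpow_le_rpow (by positivity) hX he

/-- Sets of reals with `|kA|` and `|A ^ k|` at most `|A| ^ (k - δ (k - 1))` for all `k ≥ 2`. -/
theorem kfold : ∃ δ : ℝ, 0 < δ ∧ δ ≤ 1 ∧ ∀ N : ℕ,
    ∃ (L : Type) (_ : Field L) (_ : NumberField L) (φ : L →+* ℝ) (A : Finset ℝ),
      IsTotallyReal L ∧ N ≤ A.card ∧ (∀ x ∈ A, 0 < x ∧ ∃ y : 𝓞 L, φ (y : L) = x) ∧
      ∀ k : ℕ, 2 ≤ k →
        max ((sums A k).card : ℝ) ((prods A k).card : ℝ) ≤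
          (A.card : ℝ) ^ ((k : ℝ) - δ * ((k : ℝ) - 1)) := by
  obtain ⟨c, hc0, hc1, H⟩ := sets
  set M : ℕ := ⌈960 / c / c⌉₊ with hM
  have hMc : 960 / c / c ≤ M := Nat.le_ceil _
  set K : ℝ := c * (M + 1) with hK
  have hKc : 960 / c ≤ K := by
    rw [div_le_iff₀ hc0] at hMc
    rw [hK]
    nlinarith
  have h960 : 960 ≤ 960 / c := by
    rw [le_div_iff₀ hc0]; nlinarith
  have hK960 : 960 ≤ K := h960.trans hKc
  have h9 : (M : ℝ) + 1 ≤ 9 ^ M := by
    have h1 : M + 1 ≤ 9 ^ M := by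
      have := Nat.lt_pow_self (n := M) (a := 9) (by norm_num)
      omega
    exact_mod_cast h1
  have h3M : (3 : ℝ) ^ (2 * M) = 9 ^ M := by rw [pow_mul]; norm_num
  set a : ℝ := c * (M + 1) * 3 ^ (2 * M) with ha
  have haK : a = K * 9 ^ M := by rw [ha, hK, h3M]
  have h91 : (1 : ℝ) ≤ 9 ^ M := one_le_pow₀ (by norm_num)
  have ha960 : 960 ≤ a := by rw [haK]; nlinarith
  have ha0 : 0 < a := by linarith
  have hloga : 0 < Real.log a := Real.log_pos (by linarith)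
  have hlog2 : 0 < Real.log 2 := Real.log_pos (by norm_num)
  set δ : ℝ := Real.log 2 / Real.log a with hδ
  have hδ0 : 0 < δ := by positivity
  have hδ1 : δ ≤ 1 := by
    rw [hδ, div_le_one hloga]
    exact Real.log_le_log (by norm_num) (by linarith)
  have haδ : a ^ δ = 2 := by
    rw [Real.rpow_def_of_pos ha0, hδ, mul_div_cancel₀ _ hloga.ne', Real.exp_log (by norm_num)]
  refine ⟨δ, hδ0, hδ1, fun N => ?_⟩
  obtain ⟨L, _, _, φ, A, hr, hN, hcard, hint, hk'⟩ := H (2 * M) M (by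
    rw [h3M]
    calc (1 : ℝ) ≤ K := by linarith
      _ = c * (M + 1) := rfl
      _ ≤ c * 9 ^ M := by gcongr) (N + 1)
  set d := finrank ℚ L with hd
  have hdpos : 0 < d := by omega
  have hNA : (N : ℝ) ≤ A.card := by
    calc (N : ℝ) ≤ d := by exact_mod_cast (by omega : N ≤ d)
      _ ≤ (2 : ℝ) ^ d := by exact_mod_cast (Nat.lt_two_pow_self (n := d)).le
      _ ≤ a ^ d := by gcongr; linarith
      _ ≤ _ := hcard
  refine ⟨L, inferInstance, inferInstance, φ, A, hr, by exact_mod_cast hNA, hint,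
    fun k hk => ?_⟩
  obtain ⟨h1, h2⟩ := hk' k (by omega)
  have hkR : (2 : ℝ) ≤ k := by exact_mod_cast hk
  set e : ℝ := (k : ℝ) - δ * ((k : ℝ) - 1) with he
  have he0 : 0 ≤ e := by rw [he]; nlinarith
  have hae : a ^ e = a ^ k / 2 ^ (k - 1) := by
    rw [he, Real.rpow_sub ha0, Real.rpow_natCast, Real.rpow_mul ha0.le, haδ]
    congr 1
    rw [← Real.rpow_natCast]
    congr 1
    push_cast [Nat.cast_sub (by omega : 1 ≤ k)]
    ring
  have hkey := rpow_key ha0.le hcard he0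
  have hak : a ^ k = K ^ k * 9 ^ (M * k) := by rw [haK, mul_pow, pow_mul]
  obtain ⟨j, rfl⟩ : ∃ j, k = j + 1 := ⟨k - 1, by omega⟩
  have hj1 : 1 ≤ j := by omega
  have hjj : j + 1 - 1 = j := by omega
  rw [hjj] at hae
  have hj2 : ((j + 1 : ℕ) : ℝ) ≤ 2 ^ j := by
    have : j + 1 ≤ 2 ^ j := Nat.lt_two_pow_self
    exact_mod_cast this
  have h24 : (2 : ℝ) ^ j * 2 ^ j = 4 ^ j := by rw [← mul_pow]; norm_num
  rw [max_le_iff]
  constructor
  · refine h1.trans (le_trans ?_ hkey)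
    gcongr
    rw [hae, le_div_iff₀ (by positivity), hak]
    calc 3 * ((j + 1 : ℕ) : ℝ) * 3 ^ (2 * M + 2 * M) * 2 ^ j
        ≤ 3 * 2 ^ j * 3 ^ (2 * M + 2 * M) * 2 ^ j := by gcongr
      _ = 3 * 4 ^ j * 9 ^ (M * 2) := by
          rw [pow_add, h3M, pow_mul, ← h24]; ring
      _ ≤ 4 * 4 ^ j * 9 ^ (M * (j + 1)) := by
          gcongr
          · norm_num
          · norm_num
      _ = 4 ^ (j + 1) * 9 ^ (M * (j + 1)) := by rw [pow_succ (4 : ℝ) j]; ring
      _ ≤ K ^ (j + 1) * 9 ^ (M * (j + 1)) := by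
          gcongr
          linarith
  · refine h2.trans (le_trans ?_ hkey)
    gcongr
    rw [hae, le_div_iff₀ (by positivity), hak]
    have h4 : ((j + 1 : ℕ) : ℝ) * ((2 * M : ℕ) + 2 * M) + 1 ≤ 4 * ((j + 1 : ℕ) : ℝ) * (M + 1) := by
      push_cast
      have : (0 : ℝ) ≤ j := Nat.cast_nonneg j
      nlinarith
    have h5 : (240 / c) * 4 ^ j ≤ K ^ j := by
      have h6 : (1 : ℝ) ≤ 240 / c := by
        rw [le_div_iff₀ hc0]; linarith
      calc (240 / c) * 4 ^ j ≤ (240 / c) ^ j * 4 ^ j := by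
            gcongr
            exact le_self_pow₀ h6 (by omega)
        _ = (960 / c) ^ j := by rw [← mul_pow]; ring
        _ ≤ K ^ j := by gcongr
    calc 48 * (((j + 1 : ℕ) : ℝ) * ((2 * M : ℕ) + 2 * M) + 1) * 3 ^ ((j + 1) * (2 * M)) * 2 ^ j
        ≤ 48 * (4 * ((j + 1 : ℕ) : ℝ) * (M + 1)) * 3 ^ ((j + 1) * (2 * M)) * 2 ^ j := by gcongr
      _ ≤ 48 * (4 * 2 ^ j * (M + 1)) * 3 ^ ((j + 1) * (2 * M)) * 2 ^ j := by gcongr
      _ = (192 / c) * 4 ^ j * (c * (M + 1)) * 3 ^ ((j + 1) * (2 * M)) := by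
          rw [← h24]; field_simp; ring
      _ ≤ (240 / c) * 4 ^ j * (c * (M + 1)) * 3 ^ ((j + 1) * (2 * M)) := by
          gcongr
          norm_num
      _ ≤ K ^ j * (c * (M + 1)) * 3 ^ ((j + 1) * (2 * M)) := by gcongr
      _ = K ^ (j + 1) * 9 ^ (M * (j + 1)) := by
          rw [← hK, pow_succ K j, mul_comm (j + 1) (2 * M), pow_mul, h3M, pow_mul]

theorem card_add_le (A : Finset ℝ) : (A + A).card ≤ (sums A 2).card := by
  classical
  refine Finset.card_le_card ?_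
  intro x hx
  obtain ⟨a, ha, b, hb, rfl⟩ := Finset.mem_add.mp hx
  refine mem_image.mpr ⟨![a, b], Fintype.mem_piFinset.mpr fun i => ?_, by simp⟩
  fin_cases i
  · exact ha
  · exact hb

theorem card_mul_le (A : Finset ℝ) : (A * A).card ≤ (prods A 2).card := by
  classical
  refine Finset.card_le_card ?_
  intro x hx
  obtain ⟨a, ha, b, hb, rfl⟩ := Finset.mem_mul.mp hx
  refine mem_image.mpr ⟨![a, b], Fintype.mem_piFinset.mpr fun i => ?_, by simp⟩
  fin_cases i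
  · exact ha
  · exact hb

/-- Sets of reals with `|A + A| ≤ |A| ^ (1 + η)` and `|A A| ≤ |A| ^ (2 - c η ^ 2)`. -/
theorem asym : ∃ c : ℝ, 0 < c ∧ c ≤ 1 ∧ ∀ η : ℝ, 0 < η → η ≤ 1 → ∀ N : ℕ,
    ∃ (L : Type) (_ : Field L) (_ : NumberField L) (φ : L →+* ℝ) (A : Finset ℝ),
      IsTotallyReal L ∧ N ≤ A.card ∧ (∀ x ∈ A, 0 < x ∧ ∃ y : 𝓞 L, φ (y : L) = x) ∧
      ((A + A).card : ℝ) ≤ (A.card : ℝ) ^ (1 + η) ∧
      ((A * A).card : ℝ) ≤ (A.card : ℝ) ^ (2 - c * η ^ 2) := by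
  obtain ⟨c, hc0, hc1, H⟩ := sets
  refine ⟨c ^ 2 / 26000, by positivity, by nlinarith, fun η hη0 hη1 N => ?_⟩
  set q : ℝ := 1440 / (c ^ 2 * η) with hq
  have hc2 : c ^ 2 ≤ 1 := by nlinarith
  have hcη : c ^ 2 * η ≤ 1 := by nlinarith [sq_nonneg c]
  have hcη0 : 0 < c ^ 2 * η := by positivity
  have hq1440 : 1440 ≤ q := by
    rw [hq, le_div_iff₀ hcη0]; nlinarith
  set M : ℕ := ⌈q⌉₊ with hM
  have hMq : q ≤ M := Nat.le_ceil _
  have hMq' : (M : ℝ) < q + 1 := Nat.ceil_lt_add_one (by linarith)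
  set l : ℕ := ⌈(2 * M + 2) / η⌉₊ with hl
  have hlM : (2 * M + 2) / η ≤ l := Nat.le_ceil _
  have hlM' : (l : ℝ) < (2 * M + 2) / η + 1 := Nat.ceil_lt_add_one (by positivity)
  have hlη : 2 * (M : ℝ) + 2 ≤ η * l := by
    rw [div_le_iff₀ hη0] at hlM; linarith
  have hl0 : (0 : ℝ) ≤ l := Nat.cast_nonneg l
  have hl2 : 2 * (M : ℝ) + 2 ≤ l := by nlinarith
  have hl3 : (l : ℝ) ≤ 3 * (M + 1) / η := by
    have h1 : (1 : ℝ) ≤ (M + 1) / η := by
      rw [le_div_iff₀ hη0]; nlinarith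
    have h2 : (2 * (M : ℝ) + 2) / η + (M + 1) / η = 3 * (M + 1) / η := by
      rw [← add_div]; congr 1; ring
    linarith
  have hcM : 1 ≤ c * (M + 1) := by
    have h1 : 1440 ≤ c * q := by
      rw [hq, mul_div_assoc', le_div_iff₀ hcη0]
      have : c * (c * η) ≤ c * 1 := by
        apply mul_le_mul_of_nonneg_left _ hc0.le
        nlinarith
      nlinarith
    nlinarith
  have hl3pow : (l : ℝ) ≤ 3 ^ l := by
    exact_mod_cast (Nat.lt_pow_self (n := l) (a := 3) (by norm_num)).le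
  have h3l1 : (1 : ℝ) ≤ 3 ^ l := one_le_pow₀ (by norm_num)
  obtain ⟨L, _, _, φ, A, hr, hN, hcard, hint, hk'⟩ := H l M (by
    calc (1 : ℝ) ≤ c * (M + 1) := hcM
      _ ≤ c * 3 ^ l := by
        gcongr
        linarith) (N + 1)
  set d := finrank ℚ L with hd
  set a : ℝ := c * (M + 1) * 3 ^ l with ha
  have ha3 : (3 : ℝ) ^ l ≤ a := by rw [ha]; nlinarith
  have ha0 : 0 < a := by linarith
  have hl4 : (2 : ℝ) ≤ l := by linarith
  have ha2 : 2 ≤ a := by linarith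
  have hloga : 0 < Real.log a := Real.log_pos (by linarith)
  have hlog2 : 0 < Real.log 2 := Real.log_pos (by norm_num)
  have hNA : (N : ℝ) ≤ A.card := by
    calc (N : ℝ) ≤ d := by exact_mod_cast (by omega : N ≤ d)
      _ ≤ (2 : ℝ) ^ d := by exact_mod_cast (Nat.lt_two_pow_self (n := d)).le
      _ ≤ a ^ d := by gcongr
      _ ≤ _ := hcard
  have hA1 : (1 : ℝ) ≤ A.card := le_trans (one_le_pow₀ (by linarith)) hcard
  refine ⟨L, inferInstance, inferInstance, φ, A, hr, by exact_mod_cast hNA, hint, ?_, ?_⟩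
  · have h1 := (hk' 2 (by norm_num)).1
    have h2 : ((A + A).card : ℝ) ≤ (sums A 2).card := by exact_mod_cast card_add_le A
    refine h2.trans (h1.trans (le_trans ?_ (rpow_key ha0.le hcard (by linarith))))
    gcongr
    calc (3 * ((2 : ℕ) : ℝ) * 3 ^ (l + 2 * M)) ≤ 3 ^ 2 * 3 ^ (l + 2 * M) := by
          gcongr; norm_num
      _ = (3 : ℝ) ^ ((l : ℝ) + (2 * M + 2)) := by
          rw [← pow_add, ← Real.rpow_natCast]
          congr 1
          push_cast
          ring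
      _ ≤ (3 : ℝ) ^ ((l : ℝ) * (1 + η)) :=
          Real.rpow_le_rpow_of_exponent_le (by norm_num) (by linarith)
      _ = ((3 : ℝ) ^ l) ^ (1 + η) := by
          rw [Real.rpow_mul (by norm_num), Real.rpow_natCast]
      _ ≤ a ^ (1 + η) := Real.rpow_le_rpow (by positivity) ha3 (by linarith)
  · have h1 := (hk' 2 (by norm_num)).2
    have h2 : ((A * A).card : ℝ) ≤ (prods A 2).card := by exact_mod_cast card_mul_le A
    set δ : ℝ := Real.log 2 / Real.log a with hδ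
    have hδ0 : 0 < δ := by positivity
    have hδ1 : δ ≤ 1 := by
      rw [hδ, div_le_one hloga]
      exact Real.log_le_log (by norm_num) ha2
    have haδ : a ^ δ = 2 := by
      rw [Real.rpow_def_of_pos ha0, hδ, mul_div_cancel₀ _ hloga.ne', Real.exp_log (by norm_num)]
    have hδη : c ^ 2 / 26000 * η ^ 2 ≤ δ := by
      have hlog3 : Real.log 3 ≤ 2 := (Real.log_le_sub_one_of_pos (by norm_num)).trans (by norm_num)
      have h3 : Real.log a ≤ 3 * l := by
        rw [ha, Real.log_mul (by positivity) (by positivity), Real.log_pow]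
        have h4 : Real.log (c * (M + 1)) ≤ l := by
          refine (Real.log_le_sub_one_of_pos (by positivity)).trans ?_
          nlinarith
        nlinarith
      have h4 : (M : ℝ) + 1 ≤ 1442 / (c ^ 2 * η) := by
        have h5 : (2 : ℝ) ≤ 2 / (c ^ 2 * η) := by
          rw [le_div_iff₀ hcη0]; linarith
        have h6 : 1442 / (c ^ 2 * η) = q + 2 / (c ^ 2 * η) := by
          rw [hq, ← add_div]; norm_num
        linarith
      have h5 : Real.log a ≤ 12978 / (c ^ 2 * η ^ 2) := by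
        calc Real.log a ≤ 3 * l := h3
          _ ≤ 3 * (3 * (M + 1) / η) := by gcongr
          _ ≤ 3 * (3 * (1442 / (c ^ 2 * η)) / η) := by gcongr
          _ = 12978 / (c ^ 2 * η ^ 2) := by field_simp; norm_num
      rw [hδ, le_div_iff₀ hloga]
      have h6 : c ^ 2 / 26000 * η ^ 2 * Real.log a ≤
          c ^ 2 / 26000 * η ^ 2 * (12978 / (c ^ 2 * η ^ 2)) := by gcongr
      have h7 : c ^ 2 / 26000 * η ^ 2 * (12978 / (c ^ 2 * η ^ 2)) = 12978 / 26000 := by
        field_simp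
      have h8 := Real.log_two_gt_d9
      rw [h7] at h6
      refine h6.trans ?_
      norm_num at h8 ⊢
      linarith
    have h3 : (A.card : ℝ) ^ (2 - δ) ≤ (A.card : ℝ) ^ (2 - c ^ 2 / 26000 * η ^ 2) :=
      Real.rpow_le_rpow_of_exponent_le hA1 (by linarith)
    refine le_trans ?_ h3
    refine h2.trans (h1.trans (le_trans ?_ (rpow_key ha0.le hcard (by linarith))))
    gcongr
    have hae : a ^ (2 - δ) = a ^ 2 / 2 := by
      rw [Real.rpow_sub ha0, haδ]
      norm_num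
    rw [hae, le_div_iff₀ (by norm_num)]
    have h4 : ((2 : ℕ) : ℝ) * ((l : ℝ) + 2 * M) + 1 ≤ 5 * l := by
      push_cast
      linarith
    have h5 : 480 * (l : ℝ) ≤ c ^ 2 * (M + 1) ^ 2 := by
      have h6 : 1440 / η ≤ c ^ 2 * (M + 1) := by
        have h7 : c ^ 2 * q = 1440 / η := by rw [hq]; field_simp
        rw [← h7]
        gcongr
        linarith
      calc 480 * (l : ℝ) ≤ 480 * (3 * (M + 1) / η) := by gcongr
        _ = (1440 / η) * (M + 1) := by ring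
        _ ≤ (c ^ 2 * (M + 1)) * (M + 1) := by gcongr
        _ = _ := by ring
    calc 48 * (((2 : ℕ) : ℝ) * ((l : ℝ) + 2 * M) + 1) * 3 ^ (2 * l) * 2
        ≤ 48 * (5 * l) * 3 ^ (2 * l) * 2 := by gcongr
      _ = (480 * l) * 3 ^ (2 * l) := by ring
      _ ≤ (c ^ 2 * (M + 1) ^ 2) * 3 ^ (2 * l) := by gcongr
      _ = a ^ 2 := by rw [ha, mul_comm 2 l, pow_mul]; ring

/-- A power saving beats every constant. -/
theorem lt_of_large {X B e ε c : ℝ} (hε : 0 < ε) (hc : 0 < c) (hX : (1 / c) ^ (1 / ε) < X)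
    (hB : B ≤ X ^ (e - ε)) : B < c * X ^ e := by
  have h0 : 0 ≤ (1 / c) ^ (1 / ε) := by positivity
  have hX0 : 0 < X := h0.trans_lt hX
  have h1 : 1 / c < X ^ ε := by
    calc 1 / c = ((1 / c) ^ (1 / ε)) ^ ε := by
          rw [← Real.rpow_mul (by positivity)]
          have : 1 / ε * ε = 1 := by field_simp
          rw [this, Real.rpow_one]
      _ < _ := Real.rpow_lt_rpow h0 hX hε
  have h2 : 1 < c * X ^ ε := by
    rw [div_lt_iff₀ hc] at h1; linarith
  have h3 : X ^ e = X ^ (e - ε) * X ^ ε := by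
    rw [← Real.rpow_add hX0]; congr 1; ring
  have h4 : 0 < X ^ (e - ε) := by positivity
  calc B ≤ X ^ (e - ε) := hB
    _ = X ^ (e - ε) * 1 := by ring
    _ < X ^ (e - ε) * (c * X ^ ε) := by gcongr
    _ = c * X ^ e := by rw [h3]; ring

/-- The `k`-fold inequality fails for sets of positive reals, for every `k ≥ 2`. -/
theorem fails_every_k : ∀ k : ℕ, 2 ≤ k → ∃ ε : ℝ, 0 < ε ∧ ∀ c : ℝ, 0 < c →
    ∃ A : Finset ℝ, A.Nonempty ∧ (∀ x ∈ A, 0 < x) ∧
      max ((sums A k).card : ℝ) ((prods A k).card : ℝ) < c * (A.card : ℝ) ^ ((k : ℝ) - ε) := by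
  obtain ⟨δ, hδ0, hδ1, H⟩ := kfold
  intro k hk
  have hkR : (2 : ℝ) ≤ k := by exact_mod_cast hk
  set ε : ℝ := δ * ((k : ℝ) - 1) / 2 with hε
  have hε0 : 0 < ε := by
    rw [hε]
    have : 0 < (k : ℝ) - 1 := by linarith
    positivity
  refine ⟨ε, hε0, fun c hc => ?_⟩
  obtain ⟨L, _, _, φ, A, hr, hN, hint, hk'⟩ := H (⌈(1 / c) ^ (1 / ε)⌉₊ + 1)
  have hlt : (1 / c) ^ (1 / ε) < A.card := by
    have h7 := Nat.le_ceil ((1 / c) ^ (1 / ε))
    have h8 : ((⌈(1 / c) ^ (1 / ε)⌉₊ + 1 : ℕ) : ℝ) ≤ A.card := by exact_mod_cast hN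
    push_cast at h8
    linarith
  have hne : A.Nonempty := by
    rw [← Finset.card_pos]; omega
  refine ⟨A, hne, fun x hx => (hint x hx).1, ?_⟩
  refine lt_of_large hε0 hc hlt ((hk' k hk).trans (le_of_eq ?_))
  congr 1
  rw [hε]; ring

/-- The sum-product inequality fails for sets of positive reals. -/
theorem fails_two : ∃ ε : ℝ, 0 < ε ∧ ∀ C : ℝ, 0 < C →
    ∃ A : Finset ℝ, A.Nonempty ∧ (∀ x ∈ A, 0 < x) ∧
      max ((A + A).card : ℝ) ((A * A).card : ℝ) < C * (A.card : ℝ) ^ (2 - ε) := by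
  obtain ⟨c, hc0, hc1, H⟩ := asym
  refine ⟨c / 8, by positivity, fun C hC => ?_⟩
  obtain ⟨L, _, _, φ, A, hr, hN, hint, h1, h2⟩ := H (1 / 2) (by norm_num) (by norm_num)
    (⌈(1 / C) ^ (1 / (c / 8))⌉₊ + 1)
  have hlt : (1 / C) ^ (1 / (c / 8)) < A.card := by
    have h7 := Nat.le_ceil ((1 / C) ^ (1 / (c / 8)))
    have h8 : ((⌈(1 / C) ^ (1 / (c / 8))⌉₊ + 1 : ℕ) : ℝ) ≤ A.card := by exact_mod_cast hN
    push_cast at h8
    linarith
  have hne : A.Nonempty := by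
    rw [← Finset.card_pos]; omega
  have hA1 : (1 : ℝ) ≤ A.card := by
    have : 1 ≤ A.card := by omega
    exact_mod_cast this
  refine ⟨A, hne, fun x hx => (hint x hx).1, ?_⟩
  refine lt_of_large (by positivity) hC hlt (max_le (h1.trans ?_) (h2.trans ?_))
  · exact Real.rpow_le_rpow_of_exponent_le hA1 (by linarith)
  · exact Real.rpow_le_rpow_of_exponent_le hA1 (by linarith)

end Q143.RSP
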