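import Mathlib
import Pool.Agent.Q143.RSP.Lower2
import Pool.Agent.Q143.RSP.Final

/-!
Finite sets of reals with few sums, few differences and few products, even after shifts.
-/

set_option autoImplicit false

open NumberField Module Finset Pool.Agent.TeamU Q143.KF
open scoped Pointwise

namespace Q143.RSP

theorem place_add_le {L : Type} [Field L] [NumberField L] (w : InfinitePlace L) (x y : 𝓞 L) :
    w ((x + y : 𝓞 L) : L) ≤ w (x : L) + w (y : L) := by
  have h1 : ((x + y : 𝓞 L) : L) = (x : L) + (y : L) := map_add (algebraMap (𝓞 L) L) x y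
  rw [h1, ← InfinitePlace.norm_embedding_eq w, ← InfinitePlace.norm_embedding_eq w,
    ← InfinitePlace.norm_embedding_eq w, map_add]
  exact norm_add_le _ _

theorem place_intCast {L : Type} [Field L] [NumberField L] (w : InfinitePlace L) (s : ℤ) :
    w ((s : 𝓞 L) : L) = |(s : ℝ)| := by
  have h1 : ((s : 𝓞 L) : L) = (s : L) := map_intCast (algebraMap (𝓞 L) L) s
  rw [h1, ← InfinitePlace.norm_embedding_eq w, map_intCast, Complex.norm_intCast]

theorem place_mul {L : Type} [Field L] [NumberField L] (w : InfinitePlace L) (x y : 𝓞 L) :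
    w ((x * y : 𝓞 L) : L) = w (x : L) * w (y : L) := by
  have h1 : ((x * y : 𝓞 L) : L) = (x : L) * (y : L) := map_mul (algebraMap (𝓞 L) L) x y
  rw [h1, map_mul]

/-- The number of real numbers which are values of integers in a cube. -/
theorem card_real_box {L : Type} [Field L] [NumberField L] (hr : IsTotallyReal L) (φ : L →+* ℝ)
    (P : Finset ℝ) (B : ℕ) (hB : 1 ≤ B)
    (hP : ∀ p ∈ P, ∃ z : 𝓞 L, φ (z : L) = p ∧ ∀ w : InfinitePlace L, w (z : L) ≤ B) :
    (P.card : ℝ) ≤ (3 * B) ^ finrank ℚ L := by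
  classical
  choose! y hy hyw using hP
  have hinj : Set.InjOn y P := by
    intro s hs s' hs' h
    rw [← hy s hs, ← hy s' hs', h]
  have h1 : P.card ≤ (2 * B + 1) ^ finrank ℚ L := by
    rw [← card_image_of_injOn hinj]
    refine card_box_real hr _ B ?_
    intro x hx w
    obtain ⟨s, hs, rfl⟩ := mem_image.mp hx
    exact hyw s hs w
  have h2 : P.card ≤ (3 * B) ^ finrank ℚ L := h1.trans (Nat.pow_le_pow_left (by omega) _)
  exact_mod_cast h2

/-- The number of nonzero real numbers which are values of integers in a cube with bounded norm. -/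
theorem card_real_norm {L : Type} [Field L] [NumberField L] (hr : IsTotallyReal L) (φ : L →+* ℝ)
    (P : Finset ℝ) (F : ℕ) (Y : ℝ) (hY : 1 ≤ Y)
    (hP : ∀ p ∈ P, ∃ z : 𝓞 L, φ (z : L) = p ∧ (∀ w : InfinitePlace L, w (z : L) ≤ 3 ^ F) ∧
      ∏ w : InfinitePlace L, w (z : L) ≤ Y ^ finrank ℚ L) :
    (P.card : ℝ) ≤ 1 + (48 * (F + 1) * Y) ^ finrank ℚ L := by
  classical
  choose! y hy hyw hyn using hP
  have hinj : Set.InjOn y P := by
    intro s hs s' hs' h
    rw [← hy s hs, ← hy s' hs', h]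
  have h1 := card_small_norm hr ((P.erase 0).image y) F Y hY (by
    intro z hz h0
    obtain ⟨s, hs, rfl⟩ := mem_image.mp hz
    obtain ⟨hs0, hsP⟩ := Finset.mem_erase.mp hs
    apply hs0
    rw [← hy s hsP, h0]
    simp) (by
    intro z hz w
    obtain ⟨s, hs, rfl⟩ := mem_image.mp hz
    exact hyw s (Finset.mem_of_mem_erase hs) w) (by
    intro z hz
    obtain ⟨s, hs, rfl⟩ := mem_image.mp hz
    exact hyn s (Finset.mem_of_mem_erase hs))
  rw [card_image_of_injOn (hinj.mono (by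
    intro s hs
    exact Finset.mem_of_mem_erase (Finset.mem_coe.mp hs)))] at h1
  have h2 : P.card ≤ 1 + (P.erase 0).card := by
    have := Finset.pred_card_le_card_erase (s := P) (a := (0 : ℝ))
    omega
  have h3 : (P.card : ℝ) ≤ 1 + (P.erase 0).card := by exact_mod_cast h2
  linarith

/-- The sets. -/
theorem sets2 : ∃ c : ℝ, 0 < c ∧ c ≤ 1 ∧ ∀ l M S : ℕ, 1 ≤ c * 3 ^ l → 2 * M ≤ l → ∀ N : ℕ,
    ∃ (L : Type) (_ : Field L) (_ : NumberField L) (φ : L →+* ℝ) (A : Finset ℝ),
      IsTotallyReal L ∧ N ≤ finrank ℚ L ∧ (c * (M + 1) * 3 ^ l) ^ finrank ℚ L ≤ A.card ∧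
      (∀ x ∈ A, 0 < x ∧ ∃ y : 𝓞 L, φ (y : L) = x) ∧
      ((A + A).card : ℝ) ≤ (6 * 3 ^ (l + 2 * M)) ^ finrank ℚ L ∧
      ((A - A).card : ℝ) ≤ (6 * 3 ^ (l + 2 * M)) ^ finrank ℚ L ∧
      ∀ s s' : ℤ, |s| ≤ S → |s'| ≤ S →
        (((A.image (fun x => x + (s : ℝ))) * (A.image (fun x => x + (s' : ℝ)))).card : ℝ) ≤
          1 + (48 * (2 * (l + 2 * M) + 2 * S + 1) * ((1 + S) ^ 2 * 3 ^ (2 * l))) ^
            finrank ℚ L := by
  classical
  obtain ⟨C0, hC0⟩ := tower
  set c1 : ℝ := (C0 : ℝ) + 1 with hc1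
  have hc11 : 1 ≤ c1 := by rw [hc1]; linarith [(Nat.cast_nonneg C0 : (0 : ℝ) ≤ C0)]
  have hc10 : 0 < c1 := by linarith
  refine ⟨1 / (768 * c1 ^ 2), by positivity, ?_, fun l M S hl hlM N => ?_⟩
  · rw [div_le_one (by positivity)]; nlinarith
  have hl' : 768 * c1 ^ 2 ≤ 3 ^ l := by
    rw [div_mul_eq_mul_div, one_mul, one_le_div (by positivity)] at hl
    exact hl
  obtain ⟨L, _, _, hr, -, hN, hdisc⟩ := hC0 (max (max N 4) (M + 1))
  set d := finrank ℚ L with hd
  have hdN : N ≤ d := le_trans (le_trans (le_max_left _ _) (le_max_left _ _)) hN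
  have hd4 : 4 ≤ d := le_trans (le_trans (le_max_right _ _) (le_max_left _ _)) hN
  have hdM : M + 1 ≤ d := (le_max_right _ _).trans hN
  have hcard : Fintype.card (InfinitePlace L) = d := card_places hr
  obtain ⟨A0, hA0card, hA0'⟩ := many_in_boxes C0 L hr hdisc M (by
    calc d * M + 1 ≤ d * (M + 1) := by nlinarith
      _ ≤ d * d := Nat.mul_le_mul_left _ (by omega)
      _ ≤ 2 ^ d := sq_le_two_pow d hd4) (3 ^ l) (by
    refine le_trans ?_ hl'
    nlinarith)
  have hYM : (3 : ℝ) ^ l * 9 ^ M = 3 ^ (l + 2 * M) := by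
    rw [pow_add, pow_mul]; norm_num
  have h1YM : (1 : ℝ) ≤ 3 ^ l / 9 ^ M := by
    rw [one_le_div (by positivity)]
    calc (9 : ℝ) ^ M = 3 ^ (2 * M) := by rw [pow_mul]; norm_num
      _ ≤ 3 ^ l := pow_le_pow_right₀ (by norm_num) hlM
  have hA0 : ∀ x ∈ A0, x ≠ 0 ∧ ∃ X : InfinitePlace L → ℝ,
      (∀ w : InfinitePlace L, 1 ≤ X w ∧ w (x : L) ≤ X w ∧ X w ≤ 3 ^ (l + 2 * M)) ∧
      ∏ w : InfinitePlace L, X w = (3 ^ l) ^ d := by
    intro x hx
    obtain ⟨h1, X, h2, h3⟩ := hA0' x hx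
    refine ⟨h1, X, fun w => ⟨h1YM.trans (h2 w).1, (h2 w).2.1, ?_⟩, h3⟩
    rw [← hYM]
    exact (h2 w).2.2
  -- a real embedding
  obtain ⟨w0⟩ : Nonempty (InfinitePlace L) := inferInstance
  let φ : L →+* ℝ := InfinitePlace.embedding_of_isReal (hr.isReal w0)
  have hφ0 : ∀ x : 𝓞 L, x ≠ 0 → φ (x : L) ≠ 0 := by
    intro x hx
    rw [Ne, map_eq_zero]
    intro h
    exact hx (RingOfIntegers.ext (h.trans (map_zero _).symm))
  let A : Finset ℝ := A0.image fun x : 𝓞 L => |φ (x : L)|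
  have hA : ∀ x ∈ A, ∃ y : 𝓞 L, φ (y : L) = x ∧ y ≠ 0 ∧ ∃ X : InfinitePlace L → ℝ,
      (∀ w : InfinitePlace L, 1 ≤ X w ∧ w (y : L) ≤ X w ∧ X w ≤ 3 ^ (l + 2 * M)) ∧
      ∏ w : InfinitePlace L, X w = (3 ^ l) ^ d := by
    intro x hx
    obtain ⟨u, hu, rfl⟩ := mem_image.mp hx
    obtain ⟨h1, X, h2, h3⟩ := hA0 u hu
    rcases le_or_gt 0 (φ (u : L)) with h | h
    · exact ⟨u, (abs_of_nonneg h).symm, h1, X, h2, h3⟩
    · refine ⟨-u, ?_, neg_ne_zero.mpr h1, X, fun w => ?_, h3⟩
      · rw [abs_of_neg h, ← map_neg]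
        rfl
      · rw [place_neg]; exact h2 w
  have hApos : ∀ x ∈ A, 0 < x := by
    intro x hx
    obtain ⟨u, hu, rfl⟩ := mem_image.mp hx
    exact abs_pos.mpr (hφ0 u (hA0 u hu).1)
  have hAcard : A0.card ≤ 2 * A.card := by
    refine Finset.card_le_mul_card_image A0 2 ?_
    intro y hy
    obtain ⟨u, hu, rfl⟩ := mem_image.mp hy
    have h1 : A0.filter (fun v : 𝓞 L => |φ (v : L)| = |φ (u : L)|) ⊆ {u, -u} := by
      intro v hv
      have h2 := (mem_filter.mp hv).2
      rw [mem_insert, mem_singleton]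
      rcases abs_eq_abs.mp h2 with h | h
      · left
        exact RingOfIntegers.ext (φ.injective h)
      · right
        rw [← map_neg] at h
        have h3 := φ.injective h
        refine RingOfIntegers.ext ?_
        rw [h3]
        rfl
    exact (card_le_card h1).trans card_le_two
  have hbox : ((2 * 3 ^ (l + 2 * M) : ℕ) : ℝ) = 3 ^ (l + 2 * M) + 3 ^ (l + 2 * M) := by
    push_cast; ring
  refine ⟨L, inferInstance, inferInstance, φ, A, hr, hdN, ?_, ?_, ?_, ?_, ?_⟩
  · have h1 : (A0.card : ℝ) ≤ 2 * A.card := by exact_mod_cast hAcard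
    have h2 : (2 : ℝ) * (1 / (768 * c1 ^ 2) * (M + 1) * 3 ^ l) ^ d ≤
        ((M + 1) * 3 ^ l / (384 * c1 ^ 2)) ^ d := by
      have h3 : ((M : ℝ) + 1) * 3 ^ l / (384 * c1 ^ 2) =
          2 * (1 / (768 * c1 ^ 2) * (M + 1) * 3 ^ l) := by
        field_simp
        ring
      rw [h3, mul_pow 2]
      have h4 : (2 : ℝ) ≤ 2 ^ d := by
        calc (2 : ℝ) = 2 ^ 1 := by norm_num
          _ ≤ 2 ^ d := pow_le_pow_right₀ (by norm_num) (by omega)
      gcongr
    linarith
  · intro x hx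
    obtain ⟨u, hu, -⟩ := hA x hx
    exact ⟨hApos x hx, u, hu⟩
  · have h1 := card_real_box hr φ (A + A) (2 * 3 ^ (l + 2 * M)) (by
      have : 0 < 3 ^ (l + 2 * M) := by positivity
      omega) (by
      intro p hp
      obtain ⟨a, ha, b, hb, rfl⟩ := Finset.mem_add.mp hp
      obtain ⟨y, hy, -, X, hX, -⟩ := hA a ha
      obtain ⟨z, hz, -, X', hX', -⟩ := hA b hb
      refine ⟨y + z, ?_, fun w => ?_⟩
      · rw [← hy, ← hz, ← map_add]; rfl
      · refine (place_add_le w y z).trans ?_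
        rw [hbox]
        exact add_le_add ((hX w).2.1.trans (hX w).2.2) ((hX' w).2.1.trans (hX' w).2.2))
    refine h1.trans (le_of_eq ?_)
    congr 1
    push_cast
    ring
  · have h1 := card_real_box hr φ (A - A) (2 * 3 ^ (l + 2 * M)) (by
      have : 0 < 3 ^ (l + 2 * M) := by positivity
      omega) (by
      intro p hp
      obtain ⟨a, ha, b, hb, rfl⟩ := Finset.mem_sub.mp hp
      obtain ⟨y, hy, -, X, hX, -⟩ := hA a ha
      obtain ⟨z, hz, -, X', hX', -⟩ := hA b hb
      refine ⟨y + -z, ?_, fun w => ?_⟩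
      · rw [← hy, ← hz, ← map_sub, sub_eq_add_neg, ← map_neg]; rfl
      · refine (place_add_le w y (-z)).trans ?_
        rw [hbox, place_neg]
        exact add_le_add ((hX w).2.1.trans (hX w).2.2) ((hX' w).2.1.trans (hX' w).2.2))
    refine h1.trans (le_of_eq ?_)
    congr 1
    push_cast
    ring
  · intro s s' hs hs'
    have hsh : ∀ (t : ℤ), |t| ≤ S → ∀ (y : 𝓞 L) (X : InfinitePlace L → ℝ),
        (∀ w : InfinitePlace L, 1 ≤ X w ∧ w (y : L) ≤ X w ∧ X w ≤ 3 ^ (l + 2 * M)) →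
        ∀ w : InfinitePlace L, w ((y + t : 𝓞 L) : L) ≤ (1 + S) * X w := by
      intro t ht y X hX w
      have h1 := place_add_le w y (t : 𝓞 L)
      rw [place_intCast] at h1
      have h2 : |(t : ℝ)| ≤ S := by exact_mod_cast ht
      obtain ⟨h3, h4, -⟩ := hX w
      have h5 : (0 : ℝ) ≤ S := Nat.cast_nonneg S
      nlinarith
    have h1 := card_real_norm hr φ
      ((A.image (fun x => x + (s : ℝ))) * (A.image (fun x => x + (s' : ℝ))))
      (2 * (l + 2 * M) + 2 * S) ((1 + S) ^ 2 * 3 ^ (2 * l)) (by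
        have h5 : (0 : ℝ) ≤ S := Nat.cast_nonneg S
        exact one_le_mul_of_one_le_of_one_le (one_le_pow₀ (by linarith))
          (one_le_pow₀ (by norm_num))) (by
      intro p hp
      obtain ⟨a', ha', b', hb', rfl⟩ := Finset.mem_mul.mp hp
      obtain ⟨a, ha, rfl⟩ := mem_image.mp ha'
      obtain ⟨b, hb, rfl⟩ := mem_image.mp hb'
      obtain ⟨y, hy, -, X, hX, hXn⟩ := hA a ha
      obtain ⟨z, hz, -, X', hX', hXn'⟩ := hA b hb
      have hy' := hsh s hs y X hX
      have hz' := hsh s' hs' z X' hX'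
      refine ⟨(y + s) * (z + s'), ?_, fun w => ?_, ?_⟩
      · have h2 : (((y + s) * (z + s') : 𝓞 L) : L) = ((y : L) + (s : L)) * ((z : L) + (s' : L)) := by
          have e1 : (((y + s) * (z + s') : 𝓞 L) : L) =
              ((y + s : 𝓞 L) : L) * ((z + s' : 𝓞 L) : L) := map_mul (algebraMap (𝓞 L) L) _ _
          have e2 : ((y + s : 𝓞 L) : L) = (y : L) + ((s : 𝓞 L) : L) :=
            map_add (algebraMap (𝓞 L) L) _ _
          have e3 : ((z + s' : 𝓞 L) : L) = (z : L) + ((s' : 𝓞 L) : L) :=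
            map_add (algebraMap (𝓞 L) L) _ _
          have e4 : ((s : 𝓞 L) : L) = (s : L) := map_intCast (algebraMap (𝓞 L) L) s
          have e5 : ((s' : 𝓞 L) : L) = (s' : L) := map_intCast (algebraMap (𝓞 L) L) s'
          rw [e1, e2, e3, e4, e5]
        rw [h2, map_mul, map_add, map_add, map_intCast, map_intCast, hy, hz]
      · rw [place_mul]
        have hS : (1 + S : ℝ) ≤ 3 ^ S := by
          have h6 : S + 1 ≤ 3 ^ S := Nat.lt_pow_self (by norm_num)
          have h7 : ((S + 1 : ℕ) : ℝ) ≤ 3 ^ S := by exact_mod_cast h6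
          push_cast at h7
          linarith
        calc w ((y + s : 𝓞 L) : L) * w ((z + s' : 𝓞 L) : L)
            ≤ ((1 + S) * X w) * ((1 + S) * X' w) :=
              mul_le_mul (hy' w) (hz' w) (apply_nonneg w _)
                (by have := (hX w).1; positivity)
          _ ≤ (3 ^ S * 3 ^ (l + 2 * M)) * (3 ^ S * 3 ^ (l + 2 * M)) := by
              have h8 := (hX w).1
              have h9 := (hX' w).1
              have h10 := (hX w).2.2
              have h11 := (hX' w).2.2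
              gcongr
          _ = 3 ^ (2 * (l + 2 * M) + 2 * S) := by
              rw [← pow_add, ← pow_add]; congr 1; ring
      · calc ∏ w : InfinitePlace L, w (((y + s) * (z + s') : 𝓞 L) : L)
            ≤ ∏ w : InfinitePlace L, ((1 + S) ^ 2 * (X w * X' w)) := by
              refine Finset.prod_le_prod (fun w _ => apply_nonneg w _) fun w _ => ?_
              rw [place_mul]
              calc w ((y + s : 𝓞 L) : L) * w ((z + s' : 𝓞 L) : L)
                  ≤ ((1 + S) * X w) * ((1 + S) * X' w) :=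
                    mul_le_mul (hy' w) (hz' w) (apply_nonneg w _)
                      (by have := (hX w).1; positivity)
                _ = _ := by ring
          _ = _ := by
              rw [Finset.prod_mul_distrib, Finset.prod_mul_distrib, hXn, hXn', Finset.prod_const,
                Finset.card_univ, hcard, mul_pow, two_mul l, pow_add (3 : ℝ) l l, mul_pow])
    refine h1.trans (le_of_eq ?_)
    push_cast
    ring

end Q143.RSP
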