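import Mathlib
import Pool.Agent.Q143.RSP.Shift

/-!
Finite sets of reals with few sums, few differences and few products, even after shifts.
-/

set_option autoImplicit false

open NumberField Module Finset Q143.KF
open scoped Pointwise

namespace Q143.RSP

theorem asym2 : ∃ c : ℝ, 0 < c ∧ c ≤ 1 ∧ ∀ η : ℝ, 0 < η → η ≤ 1 → ∀ S N : ℕ,
    ∃ (L : Type) (_ : Field L) (_ : NumberField L) (φ : L →+* ℝ) (A : Finset ℝ),
      IsTotallyReal L ∧ N ≤ A.card ∧ (∀ x ∈ A, 0 < x ∧ ∃ y : 𝓞 L, φ (y : L) = x) ∧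
      ((A + A).card : ℝ) ≤ (A.card : ℝ) ^ (1 + η) ∧
      ((A - A).card : ℝ) ≤ (A.card : ℝ) ^ (1 + η) ∧
      ∀ s s' : ℤ, |s| ≤ S → |s'| ≤ S →
        (((A.image (fun x => x + (s : ℝ))) * (A.image (fun x => x + (s' : ℝ)))).card : ℝ) ≤
          (A.card : ℝ) ^ (2 - c * η ^ 2 / (S + 1) ^ 2) := by
  obtain ⟨c, hc0, hc1, H⟩ := sets2
  refine ⟨c ^ 2 / 52000, by positivity, by nlinarith, fun η hη0 hη1 S N => ?_⟩
  have hS0 : (0 : ℝ) ≤ S := Nat.cast_nonneg S
  set R : ℝ := ((S : ℝ) + 1) ^ 2 with hR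
  have hR1 : 1 ≤ R := by rw [hR]; nlinarith
  have hRS : (S : ℝ) ≤ R := by rw [hR]; nlinarith
  set q : ℝ := 2880 * R / (c ^ 2 * η) with hq
  have hc2 : c ^ 2 ≤ 1 := by nlinarith
  have hcη : c ^ 2 * η ≤ 1 := by nlinarith [sq_nonneg c]
  have hcη0 : 0 < c ^ 2 * η := by positivity
  have hq2880 : 2880 * R ≤ q := by
    rw [hq, le_div_iff₀ hcη0]; nlinarith
  set M : ℕ := ⌈q⌉₊ with hM
  have hMq : q ≤ M := Nat.le_ceil _
  have hMq' : (M : ℝ) < q + 1 := Nat.ceil_lt_add_one (by nlinarith)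
  set l : ℕ := ⌈(2 * M + 2) / η⌉₊ with hl
  have hlM : (2 * M + 2) / η ≤ l := Nat.le_ceil _
  have hlM' : (l : ℝ) < (2 * M + 2) / η + 1 := Nat.ceil_lt_add_one (by positivity)
  have hlη : 2 * (M : ℝ) + 2 ≤ η * l := by
    rw [div_le_iff₀ hη0] at hlM; linarith
  have hl0 : (0 : ℝ) ≤ l := Nat.cast_nonneg l
  have hl2 : 2 * (M : ℝ) + 2 ≤ l := by nlinarith
  have hl2' : 2 * M ≤ l := by
    have h1 : 2 * (M : ℝ) ≤ l := by linarith
    exact_mod_cast h1
  have hl3 : (l : ℝ) ≤ 3 * (M + 1) / η := by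
    have h1 : (1 : ℝ) ≤ (M + 1) / η := by
      rw [le_div_iff₀ hη0]; nlinarith
    have h2 : (2 * (M : ℝ) + 2) / η + (M + 1) / η = 3 * (M + 1) / η := by
      rw [← add_div]; congr 1; ring
    linarith
  have hcM : 1 ≤ c * (M + 1) := by
    have h1 : 2880 ≤ c * q := by
      rw [hq, mul_div_assoc', le_div_iff₀ hcη0]
      have h2 : c * (c * η) ≤ c * 1 := by
        apply mul_le_mul_of_nonneg_left _ hc0.le
        nlinarith
      nlinarith
    nlinarith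
  have hl3pow : (l : ℝ) ≤ 3 ^ l := by
    exact_mod_cast (Nat.lt_pow_self (n := l) (a := 3) (by norm_num)).le
  have h3l1 : (1 : ℝ) ≤ 3 ^ l := one_le_pow₀ (by norm_num)
  obtain ⟨L, _, _, φ, A, hr, hN, hcard, hint, hadd, hsub, hmul⟩ := H l M S (by
    calc (1 : ℝ) ≤ c * (M + 1) := hcM
      _ ≤ c * 3 ^ l := by
        gcongr
        linarith) hl2' (N + 1)
  set d := finrank ℚ L with hd
  have hdpos : 0 < d := by omega
  set a : ℝ := c * (M + 1) * 3 ^ l with ha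
  have ha3 : (3 : ℝ) ^ l ≤ a := by rw [ha]; nlinarith
  have ha0 : 0 < a := by linarith
  have hl4 : (2 : ℝ) ≤ l := by linarith
  have ha2 : 2 ≤ a := by linarith
  have hloga : 0 < Real.log a := Real.log_pos (by linarith)
  have hlog2 : 0 < Real.log 2 := Real.log_pos (by norm_num)
  have hNA : (N : ℝ) ≤ A.card := by
    calc (N : ℝ) ≤ d := by exact_mod_cast (by omega : N ≤ d)
      _ ≤ (2 : ℝ) ^ d := by exact_mod_cast (Nat.lt_two_pow_self (n := d)).le
      _ ≤ a ^ d := by gcongr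
      _ ≤ _ := hcard
  have hA1 : (1 : ℝ) ≤ A.card := le_trans (one_le_pow₀ (by linarith)) hcard
  have hsum : (6 * 3 ^ (l + 2 * M) : ℝ) ^ d ≤ (A.card : ℝ) ^ (1 + η) := by
    refine le_trans ?_ (rpow_key ha0.le hcard (by linarith))
    gcongr
    calc (6 * 3 ^ (l + 2 * M) : ℝ) ≤ 3 ^ 2 * 3 ^ (l + 2 * M) := by
          gcongr; norm_num
      _ = (3 : ℝ) ^ ((l : ℝ) + (2 * M + 2)) := by
          rw [← pow_add, ← Real.rpow_natCast]
          congr 1
          push_cast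
          ring
      _ ≤ (3 : ℝ) ^ ((l : ℝ) * (1 + η)) :=
          Real.rpow_le_rpow_of_exponent_le (by norm_num) (by linarith)
      _ = ((3 : ℝ) ^ l) ^ (1 + η) := by
          rw [Real.rpow_mul (by norm_num), Real.rpow_natCast]
      _ ≤ a ^ (1 + η) := Real.rpow_le_rpow (by positivity) ha3 (by linarith)
  refine ⟨L, inferInstance, inferInstance, φ, A, hr, by exact_mod_cast hNA, hint,
    hadd.trans hsum, hsub.trans hsum, fun s s' hs hs' => ?_⟩
  set δ : ℝ := Real.log 2 / Real.log a with hδ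
  have hδ0 : 0 < δ := by positivity
  have hδ1 : δ ≤ 1 := by
    rw [hδ, div_le_one hloga]
    exact Real.log_le_log (by norm_num) ha2
  have haδ : a ^ δ = 2 := by
    rw [Real.rpow_def_of_pos ha0, hδ, mul_div_cancel₀ _ hloga.ne', Real.exp_log (by norm_num)]
  have hδη : c ^ 2 / 52000 * η ^ 2 / R ≤ δ := by
    have hlog3 : Real.log 3 ≤ 2 := (Real.log_le_sub_one_of_pos (by norm_num)).trans (by norm_num)
    have h3 : Real.log a ≤ 3 * l := by
      rw [ha, Real.log_mul (by positivity) (by positivity), Real.log_pow]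
      have h4 : Real.log (c * (M + 1)) ≤ l := by
        refine (Real.log_le_sub_one_of_pos (by positivity)).trans ?_
        nlinarith
      nlinarith
    have h4 : (M : ℝ) + 1 ≤ 2882 * R / (c ^ 2 * η) := by
      have h5 : (2 : ℝ) ≤ 2 * R / (c ^ 2 * η) := by
        rw [le_div_iff₀ hcη0]; nlinarith
      have h6 : 2882 * R / (c ^ 2 * η) = q + 2 * R / (c ^ 2 * η) := by
        rw [hq, ← add_div]; congr 1; ring
      linarith
    have h5 : Real.log a ≤ 25938 * R / (c ^ 2 * η ^ 2) := by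
      calc Real.log a ≤ 3 * l := h3
        _ ≤ 3 * (3 * (M + 1) / η) := by gcongr
        _ ≤ 3 * (3 * (2882 * R / (c ^ 2 * η)) / η) := by gcongr
        _ = 25938 * R / (c ^ 2 * η ^ 2) := by field_simp; norm_num
    rw [hδ, le_div_iff₀ hloga]
    have h6 : c ^ 2 / 52000 * η ^ 2 / R * Real.log a ≤
        c ^ 2 / 52000 * η ^ 2 / R * (25938 * R / (c ^ 2 * η ^ 2)) := by gcongr
    have h7 : c ^ 2 / 52000 * η ^ 2 / R * (25938 * R / (c ^ 2 * η ^ 2)) = 25938 / 52000 := by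
      field_simp
    have h8 := Real.log_two_gt_d9
    rw [h7] at h6
    refine h6.trans ?_
    norm_num at h8 ⊢
    linarith
  have h3 : (A.card : ℝ) ^ (2 - δ) ≤ (A.card : ℝ) ^ (2 - c ^ 2 / 52000 * η ^ 2 / R) :=
    Real.rpow_le_rpow_of_exponent_le hA1 (by linarith)
  refine le_trans ?_ h3
  refine (hmul s s' hs hs').trans (le_trans ?_ (rpow_key ha0.le hcard (by linarith)))
  have hae : a ^ (2 - δ) = a ^ 2 / 2 := by
    rw [Real.rpow_sub ha0, haδ]
    norm_num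
  set B0 : ℝ := 48 * (2 * (l + 2 * M) + 2 * S + 1) * ((1 + S) ^ 2 * 3 ^ (2 * l)) with hB0
  have hB01 : 1 ≤ B0 := by
    rw [hB0]
    have h5 : (1 : ℝ) ≤ (1 + S) ^ 2 * 3 ^ (2 * l) :=
      one_le_mul_of_one_le_of_one_le (one_le_pow₀ (by linarith)) (one_le_pow₀ (by norm_num))
    have h6 : (0 : ℝ) ≤ M := Nat.cast_nonneg M
    exact one_le_mul_of_one_le_of_one_le (by linarith) h5
  have hB2 : 1 + B0 ^ d ≤ (2 * B0) ^ d := by
    have h5 : (1 : ℝ) ≤ B0 ^ d := one_le_pow₀ hB01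
    have h6 : (2 : ℝ) ≤ 2 ^ d := by
      calc (2 : ℝ) = 2 ^ 1 := by norm_num
        _ ≤ 2 ^ d := pow_le_pow_right₀ (by norm_num) hdpos
    calc 1 + B0 ^ d ≤ B0 ^ d + B0 ^ d := by gcongr
      _ = 2 * B0 ^ d := by ring
      _ ≤ 2 ^ d * B0 ^ d := by gcongr
      _ = (2 * B0) ^ d := (mul_pow _ _ _).symm
  refine hB2.trans ?_
  gcongr
  rw [hae, le_div_iff₀ (by norm_num)]
  have hSM : (S : ℝ) ≤ M := by linarith
  have h4 : 2 * ((l : ℝ) + 2 * M) + 2 * S + 1 ≤ 5 * l := by linarith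
  have h5 : 960 * (l : ℝ) * R ≤ c ^ 2 * (M + 1) ^ 2 := by
    have h6 : 2880 * R / η ≤ c ^ 2 * (M + 1) := by
      have h7 : c ^ 2 * q = 2880 * R / η := by rw [hq]; field_simp
      rw [← h7]
      gcongr
      linarith
    calc 960 * (l : ℝ) * R ≤ 960 * (3 * (M + 1) / η) * R := by gcongr
      _ = (2880 * R / η) * (M + 1) := by ring
      _ ≤ (c ^ 2 * (M + 1)) * (M + 1) := by gcongr
      _ = _ := by ring
  have h6 : ((1 : ℝ) + S) ^ 2 = R := by rw [hR]; ring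
  rw [hB0, h6]
  calc 2 * (48 * (2 * ((l : ℝ) + 2 * M) + 2 * S + 1) * (R * 3 ^ (2 * l))) * 2
      ≤ 2 * (48 * (5 * l) * (R * 3 ^ (2 * l))) * 2 := by gcongr
    _ = (960 * l * R) * 3 ^ (2 * l) := by ring
    _ ≤ (c ^ 2 * (M + 1) ^ 2) * 3 ^ (2 * l) := by gcongr
    _ = a ^ 2 := by rw [ha, mul_comm 2 l, pow_mul]; ring

end Q143.RSP
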